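import Pool.Agent.Helper14.BL.Ellipsoid
import Pool.Agent.Helper18.BL.Defs

/-!
Bridge between the quadric lemmas of helper14 and the definitions of helper18 (MP_70efd9_gt).
-/

set_option autoImplicit false

open Set MeasureTheory Filter Topology Metric Module
open scoped RealInnerProductSpace

namespace Pool.Agent.Helper18.BL

namespace Setting

variable (S : Setting)

theorem body14 : Pool.Agent.Helper14.BL.Body S.K S.K1 where
  cK := S.K_convex
  kK := S.K_compact
  neK := S.K_int.mono interior_subset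
  cK1 := S.K1_convex
  kK1 := S.K1_compact
  sub := by
    intro x hx
    exact interior_maximal (ball_subset_closedBall.trans (S.ball_sub x hx)) isOpen_ball
      (mem_ball_self S.r_pos)

theorem supp14 (v : E) : Pool.Agent.Helper14.BL.supp S.K v = S.h v :=
  Pool.Agent.Helper14.BL.supp_eq S.K_compact v (S.h_le v) (S.h_att v)

end Setting

/-- conversion of quadratic polynomials -/
noncomputable def Quad.to14 (G : Quad) : Pool.Agent.Helper14.BL.Quad where
  B := (ContinuousLinearMap.coeLM ℝ).comp G.B.toLinearMap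
  l := innerₗ E G.p
  c := G.c

theorem Quad.to14_B (G : Quad) (x y : E) : G.to14.B x y = G.B x y := rfl

theorem Quad.to14_ev (G : Quad) (x : E) : G.to14.ev x = G.ev x := rfl

/-- conversion of quadratic polynomials -/
theorem exists_of14 (q : Pool.Agent.Helper14.BL.Quad) :
    ∃ G : Quad, (∀ x, G.ev x = q.ev x) ∧ ∀ x, G.B x x = q.B x x := by
  let B0 : E →ₗ[ℝ] E →ₗ[ℝ] ℝ := (1 / 2 : ℝ) • (q.B + q.B.flip)
  let B1 : E →L[ℝ] E →L[ℝ] ℝ :=
    LinearMap.toContinuousLinearMap ((LinearMap.toContinuousLinearMap : (E →ₗ[ℝ] ℝ) ≃ₗ[ℝ] _).toLinearMap.comp B0)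
  have hB1 : ∀ x y, B1 x y = (q.B x y + q.B y x) / 2 := by
    intro x y
    have : B1 x y = B0 x y := rfl
    rw [this]
    simp only [B0, LinearMap.smul_apply, LinearMap.add_apply, LinearMap.flip_apply, smul_eq_mul]
    ring
  refine ⟨⟨B1, (InnerProductSpace.toDual ℝ E).symm (LinearMap.toContinuousLinearMap q.l), q.c,
    fun x y => by rw [hB1, hB1]; ring⟩, ?_, ?_⟩
  · intro x
    unfold Quad.ev
    simp only
    rw [hB1, InnerProductSpace.toDual_symm_apply]
    have : (LinearMap.toContinuousLinearMap q.l) x = q.l x := rfl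
    rw [this]
    unfold Pool.Agent.Helper14.BL.Quad.ev
    ring
  · intro x
    simp only
    rw [hB1]
    ring

namespace Setting

variable (S : Setting)

theorem ellAt_of_ell {v : E} (hv : v ≠ 0) (h : S.Ell v) :
    ∃ G : Quad, Pool.Agent.Helper14.BL.EllAt S.K S.K1 v G.to14 := by
  obtain ⟨B, hsym, hpos, hSp⟩ := h
  let G : Quad := ⟨B, (-2 : ℝ) • (InnerProductSpace.toDual ℝ E).symm (B (S.C v)),
    B (S.C v) (S.C v) - 1, hsym⟩
  have hG : ∀ x, G.ev x = B (x - S.C v) (x - S.C v) - 1 := by
    intro x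
    unfold Quad.ev
    simp only [G]
    rw [real_inner_smul_left, InnerProductSpace.toDual_symm_apply]
    simp only [map_sub, _root_.sub_apply]
    rw [hsym x (S.C v)]
    ring
  refine ⟨G, ?_, ?_⟩
  · intro x hx hx0
    exact hpos x hx hx0
  · intro x hx
    rw [S.supp14] at hx
    rw [Quad.to14_ev, hG]
    have h1 : x - S.C v ∈ S.Sp v ↔ x ∈ S.K1 := by
      unfold Setting.Sp
      simp only [mem_ofPred_eq]
      constructor
      · rintro ⟨-, h2⟩
        rwa [add_sub_cancel] at h2
      · intro h2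
        refine ⟨?_, by rwa [add_sub_cancel]⟩
        rw [inner_sub_right, hx, S.C_h v hv, sub_self]
    rw [← h1, hSp]
    simp only [mem_ofPred_eq]
    constructor
    · rintro ⟨-, h2⟩
      linarith
    · intro h2
      refine ⟨?_, by linarith⟩
      rw [inner_sub_right, hx, S.C_h v hv, sub_self]

theorem rep_of_ellAt {v : E} {q : Pool.Agent.Helper14.BL.Quad} {G : Quad}
    (hG : ∀ x, G.ev x = q.ev x) (h : Pool.Agent.Helper14.BL.EllAt S.K S.K1 v q) : S.Rep G v := by
  intro x hx
  rw [hG]
  exact h.iff x (by rw [S.supp14]; exact hx)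

end Setting

end Pool.Agent.Helper18.BL
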