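import Mathlib

/-!
Barker–Larman (MP_70efd9_gt): reduction of dimension `n ≥ 3` to dimension three (helper14).
-/

open Set Metric Module
open scoped RealInnerProductSpace

namespace Pool.Agent.Helper14.BL

/-- Euclidean space -/
abbrev E (n : ℕ) := EuclideanSpace ℝ (Fin n)

/-- support function -/
noncomputable def supp {V : Type} [NormedAddCommGroup V] [InnerProductSpace ℝ V]
    (K : Set V) (u : V) : ℝ := sSup ((fun x => ⟪u, x⟫) '' K)

section Supp

variable {V : Type} [NormedAddCommGroup V] [InnerProductSpace ℝ V]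

lemma bdd_supp {K : Set V} (hK : IsCompact K) (u : V) :
    BddAbove ((fun x => ⟪u, x⟫) '' K) :=
  (hK.image (by fun_prop)).bddAbove

lemma le_supp {K : Set V} (hK : IsCompact K) (u : V) {x : V} (hx : x ∈ K) :
    ⟪u, x⟫ ≤ supp K u :=
  le_csSup (bdd_supp hK u) ⟨x, hx, rfl⟩

lemma exists_supp {K : Set V} (hK : IsCompact K) (hne : K.Nonempty) (u : V) :
    ∃ x ∈ K, ⟪u, x⟫ = supp K u := by
  have := (hK.image (f := fun x => ⟪u, x⟫) (by fun_prop)).sSup_mem (hne.image _)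
  obtain ⟨x, hx, h⟩ := this
  exact ⟨x, hx, h⟩

lemma supp_le {K : Set V} (hne : K.Nonempty) (u : V) {c : ℝ} (h : ∀ x ∈ K, ⟪u, x⟫ ≤ c) :
    supp K u ≤ c := by
  refine csSup_le (hne.image _) ?_
  rintro _ ⟨x, hx, rfl⟩
  exact h x hx

lemma supp_eq {K : Set V} (hK : IsCompact K) (u : V) {c : ℝ} (h : ∀ x ∈ K, ⟪u, x⟫ ≤ c)
    (h' : ∃ x ∈ K, ⟪u, x⟫ = c) : supp K u = c := by
  obtain ⟨x, hx, rfl⟩ := h'
  exact le_antisymm (supp_le ⟨x, hx⟩ u h) (le_supp hK u hx)

lemma mem_iff_supp [CompleteSpace V] {K : Set V} (hK : IsCompact K) (hc : Convex ℝ K)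
    (hne : K.Nonempty) (x : V) :
    x ∈ K ↔ ∀ u, ⟪u, x⟫ ≤ supp K u := by
  constructor
  · intro hx u
    exact le_supp hK u hx
  · intro h
    by_contra hx
    obtain ⟨f, t, h1, h2⟩ := geometric_hahn_banach_closed_point hc hK.isClosed hx
    have h3 := h ((InnerProductSpace.toDual ℝ V).symm f)
    have h4 : supp K ((InnerProductSpace.toDual ℝ V).symm f) ≤ t := by
      refine supp_le hne _ fun y hy => ?_
      rw [InnerProductSpace.toDual_symm_apply]
      exact (h1 y hy).le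
    rw [InnerProductSpace.toDual_symm_apply] at h3
    linarith

lemma eq_of_supp_eq [CompleteSpace V] {K L : Set V} (hK : IsCompact K) (hKc : Convex ℝ K)
    (hKn : K.Nonempty) (hL : IsCompact L) (hLc : Convex ℝ L) (hLn : L.Nonempty)
    (h : ∀ u, supp K u = supp L u) : K = L := by
  ext x
  rw [mem_iff_supp hK hKc hKn, mem_iff_supp hL hLc hLn]
  simp [h]

end Supp

/-- the hypothesis of the Barker–Larman problem -/
structure Hyp (n : ℕ) (K K1 : Set (E n)) : Prop where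
  cK : Convex ℝ K
  kK : IsCompact K
  iK : (interior K).Nonempty
  cK1 : Convex ℝ K1
  kK1 : IsCompact K1
  iK1 : (interior K1).Nonempty
  sub : K ⊆ interior K1
  sym : ∀ (f : E n →L[ℝ] ℝ) (c : ℝ), f ≠ 0 →
        (∀ x ∈ K, f x ≤ c) → (∃ x ∈ K, f x = c) →
        ∃ p : E n, ∀ x ∈ K1, f x = c →
          ((2 : ℝ) • p - x ∈ K1 ∧ f ((2 : ℝ) • p - x) = c)

/-- ellipsoids -/
def IsEll (n : ℕ) (K1 : Set (E n)) : Prop :=
  ∃ (T : E n ≃ₗ[ℝ] E n) (a : E n), K1 = (fun x => a + T x) '' Metric.closedBall 0 1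

/-- surjective images of the hypothesis -/
lemma Hyp.image {n m : ℕ} {K K1 : Set (E n)} (h : Hyp n K K1) (A : E n →L[ℝ] E m)
    (hA : Function.Surjective A) : Hyp m (A '' K) (A '' K1) := by
  have hopen : IsOpenMap A := A.isOpenMap hA
  refine ⟨h.cK.linear_image A.toLinearMap, h.kK.image A.continuous, ?_,
    h.cK1.linear_image A.toLinearMap, h.kK1.image A.continuous, ?_, ?_, ?_⟩
  · exact (h.iK.image A).mono (hopen.image_interior_subset K)
  · exact (h.iK1.image A).mono (hopen.image_interior_subset K1)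
  · exact (image_mono h.sub).trans (hopen.image_interior_subset K1)
  · intro g c hg hle hex
    have hf : g ∘L A ≠ 0 := by
      intro h0
      apply hg
      ext y
      obtain ⟨x, rfl⟩ := hA y
      exact congrArg (fun F => F x) h0
    obtain ⟨p, hp⟩ := h.sym (g ∘L A) c hf (fun x hx => hle _ ⟨x, hx, rfl⟩)
      (by
        obtain ⟨_, ⟨x, hx, rfl⟩, h1⟩ := hex
        exact ⟨x, hx, h1⟩)
    refine ⟨A p, ?_⟩
    rintro _ ⟨x, hx, rfl⟩ hgx
    obtain ⟨h1, h2⟩ := hp x hx hgx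
    have h3 : (2:ℝ) • A p - A x = A ((2:ℝ) • p - x) := by simp
    rw [h3]
    exact ⟨⟨_, h1, rfl⟩, h2⟩

lemma supp_image {n m : ℕ} {K : Set (E n)} (A : E n →L[ℝ] E m) (φ : E m) :
    supp (A '' K) φ = supp K (ContinuousLinearMap.adjoint A φ) := by
  unfold supp
  rw [image_image]
  congr 1
  apply image_congr
  intro x _
  rw [ContinuousLinearMap.adjoint_inner_left]

/-- support function of an ellipsoid -/
lemma supp_ell {n : ℕ} (T : E n ≃ₗ[ℝ] E n) (a : E n) (u : E n) :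
    supp ((fun x => a + T x) '' closedBall (0 : E n) 1) u
      = ⟪u, a⟫ + ‖LinearMap.adjoint (T : E n →ₗ[ℝ] E n) u‖ := by
  have hcont : Continuous (fun x : E n => a + T x) := by
    have : Continuous T := T.toLinearMap.continuous_of_finiteDimensional
    fun_prop
  apply supp_eq ((isCompact_closedBall _ _).image hcont)
  · rintro _ ⟨x, hx, rfl⟩
    rw [mem_closedBall_zero_iff] at hx
    have h1 : ⟪u, T x⟫ = ⟪LinearMap.adjoint (T : E n →ₗ[ℝ] E n) u, x⟫ := by
      rw [LinearMap.adjoint_inner_left]; rfl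
    rw [inner_add_right, h1]
    have h2 := real_inner_le_norm (LinearMap.adjoint (T : E n →ₗ[ℝ] E n) u) x
    have h3 := mul_le_mul_of_nonneg_left hx (norm_nonneg (LinearMap.adjoint (T : E n →ₗ[ℝ] E n) u))
    linarith
  · set w := LinearMap.adjoint (T : E n →ₗ[ℝ] E n) u with hw
    refine ⟨a + T (‖w‖⁻¹ • w), ⟨_, ?_, rfl⟩, ?_⟩
    · rw [mem_closedBall_zero_iff, norm_smul, norm_inv, norm_norm]
      exact inv_mul_le_one
    · have h1 : ⟪u, T (‖w‖⁻¹ • w)⟫ = ⟪w, ‖w‖⁻¹ • w⟫ := by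
        rw [hw, LinearMap.adjoint_inner_left]; rfl
      rw [inner_add_right, h1, inner_smul_right, real_inner_self_eq_norm_sq]
      rcases eq_or_ne ‖w‖ 0 with h0 | h0
      · simp [h0]
      · field_simp

/-- three vectors lie in the range of an isometric embedding of three-space -/
lemma exists_iso (n : ℕ) (hn : 3 ≤ n) (u v w : E n) :
    ∃ ι : E 3 →ₗᵢ[ℝ] E n, u ∈ range ι ∧ v ∈ range ι ∧ w ∈ range ι := by
  classical
  have key : ∀ k ≤ n, ∀ W : Submodule ℝ (E n), finrank ℝ W ≤ k →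
      ∃ W' : Submodule ℝ (E n), W ≤ W' ∧ finrank ℝ W' = k := by
    intro k hk W hW
    obtain ⟨m, hm⟩ := Nat.exists_eq_add_of_le hW
    induction m generalizing k with
    | zero => exact ⟨W, le_rfl, by omega⟩
    | succ m ih =>
      obtain ⟨W', h1, h2⟩ := ih (finrank ℝ W + m) (by omega) (by omega) rfl
      have hlt : W' < ⊤ := by
        rw [lt_top_iff_ne_top]
        rintro rfl
        rw [finrank_top, finrank_euclideanSpace_fin] at h2
        omega
      obtain ⟨x, -, hx⟩ := SetLike.exists_of_lt hlt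
      refine ⟨W' ⊔ Submodule.span ℝ {x}, h1.trans le_sup_left, ?_⟩
      have h3 := Submodule.finrank_sup_add_finrank_inf_eq W' (Submodule.span ℝ {x})
      have h4 : W' ⊓ Submodule.span ℝ {x} = ⊥ := by
        rw [← disjoint_iff]
        have hx0 : x ≠ 0 := fun h => hx (h ▸ W'.zero_mem)
        rw [Submodule.disjoint_span_singleton' hx0]
        exact hx
      have hx0 : x ≠ 0 := fun h => hx (h ▸ W'.zero_mem)
      rw [h4, finrank_bot, finrank_span_singleton hx0] at h3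
      omega
  obtain ⟨W, h1, h2⟩ := key 3 hn (Submodule.span ℝ ({u, v, w} : Finset (E n)))
    ((finrank_span_finset_le_card _).trans Finset.card_le_three)
  let b := (stdOrthonormalBasis ℝ W).reindex (finCongr h2)
  let ι : E 3 →ₗᵢ[ℝ] E n := W.subtypeₗᵢ.comp b.repr.symm.toLinearIsometry
  have hr : ∀ x ∈ W, x ∈ range ι := by
    intro x hx
    refine ⟨b.repr ⟨x, hx⟩, ?_⟩
    simp [ι]
  refine ⟨ι, hr _ (h1 (Submodule.subset_span (by simp))), hr _ (h1 (Submodule.subset_span (by simp))),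
    hr _ (h1 (Submodule.subset_span (by simp)))⟩

/-- the local form of the support function -/
def LocEll (n : ℕ) (h : E n → ℝ) : Prop :=
  ∀ u v w : E n, ∃ (ι : E 3 →ₗᵢ[ℝ] E n) (S : E 3 ≃ₗ[ℝ] E 3) (a : E 3),
    u ∈ range ι ∧ v ∈ range ι ∧ w ∈ range ι ∧ ∀ φ, h (ι φ) = ⟪φ, a⟫ + ‖S φ‖

/-- the adjoint of a linear equivalence as a linear equivalence -/
noncomputable def adj {n : ℕ} (T : E n ≃ₗ[ℝ] E n) : E n ≃ₗ[ℝ] E n :=
  LinearEquiv.ofInjectiveEndo (LinearMap.adjoint (T : E n →ₗ[ℝ] E n)) (by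
    rw [← LinearMap.ker_eq_bot, LinearMap.ker_eq_bot']
    intro x hx
    obtain ⟨y, hy⟩ := T.surjective x
    have h1 : ⟪LinearMap.adjoint (T : E n →ₗ[ℝ] E n) x, y⟫ = ⟪x, T y⟫ := by
      rw [LinearMap.adjoint_inner_left]; rfl
    rw [hx, inner_zero_left, hy] at h1
    exact inner_self_eq_zero.1 h1.symm)

lemma adj_apply {n : ℕ} (T : E n ≃ₗ[ℝ] E n) (x : E n) :
    adj T x = LinearMap.adjoint (T : E n →ₗ[ℝ] E n) x := rfl

lemma adj_coe {n : ℕ} (T : E n ≃ₗ[ℝ] E n) :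
    ((adj T : E n ≃ₗ[ℝ] E n) : E n →ₗ[ℝ] E n) = LinearMap.adjoint (T : E n →ₗ[ℝ] E n) := by
  ext1 x; rfl

lemma supp_ell' {n : ℕ} (S : E n ≃ₗ[ℝ] E n) (a : E n) (u : E n) :
    supp ((fun x => a + adj S x) '' closedBall (0 : E n) 1) u = ⟪u, a⟫ + ‖S u‖ := by
  rw [supp_ell, adj_coe, LinearMap.adjoint_adjoint]
  rfl

lemma locEll_of (h3 : ∀ K K1 : Set (E 3), Hyp 3 K K1 → IsEll 3 K1) {n : ℕ} (hn : 3 ≤ n)
    {K K1 : Set (E n)} (h : Hyp n K K1) : LocEll n (supp K1) := by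
  intro u v w
  obtain ⟨ι, hu, hv, hw⟩ := exists_iso n hn u v w
  let A : E n →L[ℝ] E 3 := ContinuousLinearMap.adjoint ι.toContinuousLinearMap
  have hAι : ∀ φ, A (ι φ) = φ := by
    intro φ
    apply ext_inner_right ℝ
    intro ψ
    rw [ContinuousLinearMap.adjoint_inner_left]
    exact ι.inner_map_map φ ψ
  have hA : Function.Surjective A := fun φ => ⟨ι φ, hAι φ⟩
  obtain ⟨T, a, hT⟩ := h3 _ _ (h.image A hA)
  refine ⟨ι, adj T, a, hu, hv, hw, fun φ => ?_⟩
  have h1 := supp_image (K := K1) A φ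
  rw [hT, supp_ell] at h1
  rw [adj_apply, h1]
  congr 1
  simp only [A, ContinuousLinearMap.adjoint_adjoint]
  rfl

section Alg

variable {n : ℕ} {h : E n → ℝ}

/-- odd part -/
noncomputable def od (h : E n → ℝ) (u : E n) : ℝ := (h u - h (-u)) / 2

/-- even part -/
noncomputable def ev (h : E n → ℝ) (u : E n) : ℝ := (h u + h (-u)) / 2

/-- polar form of the square of the even part -/
noncomputable def pol (h : E n → ℝ) (u v : E n) : ℝ :=
  (ev h (u + v) ^ 2 - ev h (u - v) ^ 2) / 4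

lemma od_loc {ι : E 3 →ₗᵢ[ℝ] E n} {S : E 3 ≃ₗ[ℝ] E 3} {a : E 3}
    (H : ∀ φ, h (ι φ) = ⟪φ, a⟫ + ‖S φ‖) (φ : E 3) : od h (ι φ) = ⟪φ, a⟫ := by
  unfold od
  rw [← map_neg, H, H, inner_neg_left, map_neg, norm_neg]
  ring

lemma ev_loc {ι : E 3 →ₗᵢ[ℝ] E n} {S : E 3 ≃ₗ[ℝ] E 3} {a : E 3}
    (H : ∀ φ, h (ι φ) = ⟪φ, a⟫ + ‖S φ‖) (φ : E 3) : ev h (ι φ) = ‖S φ‖ := by
  unfold ev
  rw [← map_neg, H, H, inner_neg_left, map_neg, norm_neg]
  ring

lemma pol_loc {ι : E 3 →ₗᵢ[ℝ] E n} {S : E 3 ≃ₗ[ℝ] E 3} {a : E 3}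
    (H : ∀ φ, h (ι φ) = ⟪φ, a⟫ + ‖S φ‖) (φ ψ : E 3) : pol h (ι φ) (ι ψ) = ⟪S φ, S ψ⟫ := by
  unfold pol
  rw [← map_add, ← map_sub, ev_loc H, ev_loc H, map_add, map_sub, norm_add_sq_real,
    norm_sub_sq_real]
  ring

/-- the odd part is linear -/
noncomputable def odL (H : LocEll n h) : E n →ₗ[ℝ] ℝ where
  toFun := od h
  map_add' u v := by
    obtain ⟨ι, S, a, ⟨φ, rfl⟩, ⟨ψ, rfl⟩, -, h1⟩ := H u v u
    rw [← map_add, od_loc h1, od_loc h1, od_loc h1, inner_add_left]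
  map_smul' r u := by
    obtain ⟨ι, S, a, ⟨φ, rfl⟩, -, -, h1⟩ := H u u u
    rw [← map_smul, od_loc h1, od_loc h1, real_inner_smul_left]
    rfl

/-- the polar form is bilinear -/
noncomputable def polB (H : LocEll n h) : LinearMap.BilinForm ℝ (E n) :=
  LinearMap.mk₂ ℝ (pol h)
    (by
      intro u v w
      obtain ⟨ι, S, a, ⟨φ, rfl⟩, ⟨ψ, rfl⟩, ⟨χ, rfl⟩, h1⟩ := H u v w
      rw [← map_add, pol_loc h1, pol_loc h1, pol_loc h1, map_add, inner_add_left])
    (by
      intro c u v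
      obtain ⟨ι, S, a, ⟨φ, rfl⟩, ⟨ψ, rfl⟩, -, h1⟩ := H u v u
      rw [← map_smul, pol_loc h1, pol_loc h1, map_smul, real_inner_smul_left]
      rfl)
    (by
      intro u v w
      obtain ⟨ι, S, a, ⟨φ, rfl⟩, ⟨ψ, rfl⟩, ⟨χ, rfl⟩, h1⟩ := H u v w
      rw [← map_add, pol_loc h1, pol_loc h1, pol_loc h1, map_add, inner_add_right])
    (by
      intro c u v
      obtain ⟨ι, S, a, ⟨φ, rfl⟩, ⟨ψ, rfl⟩, -, h1⟩ := H u v u
      rw [← map_smul, pol_loc h1, pol_loc h1, map_smul, real_inner_smul_right]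
      rfl)

lemma polB_apply (H : LocEll n h) (u v : E n) : polB H u v = pol h u v := rfl

lemma polB_symm (H : LocEll n h) (u v : E n) : polB H u v = polB H v u := by
  rw [polB_apply, polB_apply]
  obtain ⟨ι, S, a, ⟨φ, rfl⟩, ⟨ψ, rfl⟩, -, h1⟩ := H u v u
  rw [pol_loc h1, pol_loc h1, real_inner_comm]

lemma polB_self (H : LocEll n h) (u : E n) : polB H u u = ev h u ^ 2 := by
  rw [polB_apply]
  obtain ⟨ι, S, a, ⟨φ, rfl⟩, -, -, h1⟩ := H u u u
  rw [pol_loc h1, ev_loc h1, real_inner_self_eq_norm_sq]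

lemma ev_nonneg (H : LocEll n h) (u : E n) : 0 ≤ ev h u := by
  obtain ⟨ι, S, a, ⟨φ, rfl⟩, -, -, h1⟩ := H u u u
  rw [ev_loc h1]
  positivity

lemma ev_pos (H : LocEll n h) {u : E n} (hu : u ≠ 0) : 0 < ev h u := by
  obtain ⟨ι, S, a, ⟨φ, rfl⟩, -, -, h1⟩ := H u u u
  rw [ev_loc h1, norm_pos_iff]
  intro h0
  rw [LinearEquiv.map_eq_zero_iff] at h0
  apply hu
  rw [h0, map_zero]

/-- square root of the polar form -/
lemma exists_sqrt (H : LocEll n h) : ∃ S : E n ≃ₗ[ℝ] E n, ∀ u, ‖S u‖ = ev h u := by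
  have hsym : LinearMap.IsSymm (polB H) := ⟨polB_symm H⟩
  obtain ⟨v, hv⟩ := LinearMap.BilinForm.exists_orthogonal_basis hsym
  have hpos : ∀ i, 0 < polB H (v i) (v i) := by
    intro i
    rw [polB_self]
    have := ev_pos H (v.ne_zero i)
    positivity
  have hn : finrank ℝ (E n) = n := finrank_euclideanSpace_fin
  let w : Fin (finrank ℝ (E n)) → ℝˣ := fun i =>
    Units.mk0 (Real.sqrt (polB H (v i) (v i)))⁻¹
      (inv_ne_zero (Real.sqrt_ne_zero'.2 (hpos i)))
  let b : Basis (Fin (finrank ℝ (E n))) ℝ (E n) := v.unitsSMul w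
  have hb : ∀ i j, polB H (b i) (b j) = if i = j then 1 else 0 := by
    intro i j
    have h1 : b i = ((Real.sqrt (polB H (v i) (v i)))⁻¹ : ℝ) • v i := by
      simp only [b, Basis.unitsSMul_apply]; rfl
    have h2 : b j = ((Real.sqrt (polB H (v j) (v j)))⁻¹ : ℝ) • v j := by
      simp only [b, Basis.unitsSMul_apply]; rfl
    rw [h1, h2, map_smul, map_smul, LinearMap.smul_apply]
    split_ifs with hij
    · subst hij
      have h3 := Real.mul_self_sqrt (hpos i).le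
      have h4 : Real.sqrt (polB H (v i) (v i)) ≠ 0 := Real.sqrt_ne_zero'.2 (hpos i)
      simp only [smul_eq_mul]
      rw [← h3]
      simp only [Real.sqrt_mul_self (Real.sqrt_nonneg _)]
      field_simp
    · have h3 : polB H (v i) (v j) = 0 := hv hij
      rw [h3]
      simp
  let b' := b.reindex (finCongr hn)
  have hb' : ∀ i j, polB H (b' i) (b' j) = if i = j then 1 else 0 := by
    intro i j
    simp only [b', Basis.reindex_apply]
    rw [hb]
    simp
  let S : E n ≃ₗ[ℝ] E n := b'.equivFun ≪≫ₗ (WithLp.linearEquiv 2 ℝ (Fin n → ℝ)).symm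
  refine ⟨S, fun u => ?_⟩
  have h5 : ‖S u‖ ^ 2 = ev h u ^ 2 := by
    rw [← polB_self H, EuclideanSpace.norm_sq_eq]
    have h6 : polB H u u = ∑ i, b'.repr u i * b'.repr u i := by
      conv_lhs => rw [← b'.sum_repr u]
      simp only [map_sum, LinearMap.sum_apply, map_smul, LinearMap.smul_apply, hb', smul_eq_mul]
      simp
    rw [h6]
    refine Finset.sum_congr rfl fun i _ => ?_
    have h7 : S u i = b'.repr u i := by
      simp [S]
    rw [h7, Real.norm_eq_abs, sq_abs, sq]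
  exact (sq_eq_sq₀ (norm_nonneg _) (ev_nonneg H u)).1 h5

end Alg

/-- **Part F**: dimension three implies all dimensions. -/
theorem dim_reduction (h3 : ∀ K K1 : Set (E 3), Hyp 3 K K1 → IsEll 3 K1) (n : ℕ) (hn : 3 ≤ n)
    (K K1 : Set (E n)) (h : Hyp n K K1) : IsEll n K1 := by
  have H := locEll_of h3 hn h
  obtain ⟨S, hS⟩ := exists_sqrt H
  let c : E n := (InnerProductSpace.toDual ℝ (E n)).symm (odL H).toContinuousLinearMap
  have hc : ∀ u, ⟪u, c⟫ = od (supp K1) u := by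
    intro u
    rw [real_inner_comm, InnerProductSpace.toDual_symm_apply]
    rfl
  have hcont : Continuous (fun x : E n => c + adj S x) := by
    have : Continuous (adj S) := (adj S).toLinearMap.continuous_of_finiteDimensional
    fun_prop
  refine ⟨adj S, c, ?_⟩
  refine eq_of_supp_eq h.kK1 h.cK1 (h.iK1.mono interior_subset)
    ((isCompact_closedBall _ _).image hcont) ?_ ((nonempty_closedBall.2 zero_le_one).image _) ?_
  · have h1 : (fun x : E n => c + adj S x) '' closedBall 0 1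
        = (fun x => c + x) '' ((adj S) '' closedBall 0 1) := by rw [image_image]
    rw [h1]
    exact ((convex_closedBall (0 : E n) 1).linear_image (adj S).toLinearMap).translate c
  · intro u
    rw [supp_ell', hc, hS]
    unfold od ev
    ring

end Pool.Agent.Helper14.BL
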