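import Pool.Agent.Helper14.BL.Local

/-!
Barker–Larman (MP_70efd9_gt), part E: all sections elliptical implies ellipsoid (helper14).
-/

open Set Metric Module
open scoped RealInnerProductSpace

namespace Pool.Agent.Helper14.BL

/-- square root of a positive definite form -/
lemma exists_sqrt_form {n : ℕ} (B : LinearMap.BilinForm ℝ (E n)) (hsym : ∀ u v, B u v = B v u)
    (hpos : ∀ u, u ≠ 0 → 0 < B u u) : ∃ S : E n ≃ₗ[ℝ] E n, ∀ u, ‖S u‖ ^ 2 = B u u := by
  have hs : LinearMap.IsSymm B := ⟨hsym⟩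
  obtain ⟨v, hv⟩ := LinearMap.BilinForm.exists_orthogonal_basis hs
  have hpos' : ∀ i, 0 < B (v i) (v i) := fun i => hpos _ (v.ne_zero i)
  have hn : finrank ℝ (E n) = n := finrank_euclideanSpace_fin
  let w : Fin (finrank ℝ (E n)) → ℝˣ := fun i =>
    Units.mk0 (Real.sqrt (B (v i) (v i)))⁻¹
      (inv_ne_zero (Real.sqrt_ne_zero'.2 (hpos' i)))
  let b : Basis (Fin (finrank ℝ (E n))) ℝ (E n) := v.unitsSMul w
  have hb : ∀ i j, B (b i) (b j) = if i = j then 1 else 0 := by
    intro i j
    have h1 : b i = ((Real.sqrt (B (v i) (v i)))⁻¹ : ℝ) • v i := by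
      simp only [b, Basis.unitsSMul_apply]; rfl
    have h2 : b j = ((Real.sqrt (B (v j) (v j)))⁻¹ : ℝ) • v j := by
      simp only [b, Basis.unitsSMul_apply]; rfl
    rw [h1, h2, map_smul, map_smul, LinearMap.smul_apply]
    split_ifs with hij
    · subst hij
      have h3 := Real.mul_self_sqrt (hpos' i).le
      have h4 : Real.sqrt (B (v i) (v i)) ≠ 0 := Real.sqrt_ne_zero'.2 (hpos' i)
      simp only [smul_eq_mul]
      rw [← h3]
      simp only [Real.sqrt_mul_self (Real.sqrt_nonneg _)]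
      field_simp
    · have h3 : B (v i) (v j) = 0 := hv hij
      rw [h3]
      simp
  let b' := b.reindex (finCongr hn)
  have hb' : ∀ i j, B (b' i) (b' j) = if i = j then 1 else 0 := by
    intro i j
    simp only [b', Basis.reindex_apply]
    rw [hb]
    simp
  let S : E n ≃ₗ[ℝ] E n := b'.equivFun ≪≫ₗ (WithLp.linearEquiv 2 ℝ (Fin n → ℝ)).symm
  refine ⟨S, fun u => ?_⟩
  rw [EuclideanSpace.norm_sq_eq]
  have h6 : B u u = ∑ i, b'.repr u i * b'.repr u i := by
    conv_lhs => rw [← b'.sum_repr u]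
    simp only [map_sum, LinearMap.sum_apply, map_smul, LinearMap.smul_apply, hb', smul_eq_mul]
    simp
  rw [h6]
  refine Finset.sum_congr rfl fun i _ => ?_
  have h7 : S u i = b'.repr u i := by
    simp [S]
  rw [h7, Real.norm_eq_abs, sq_abs, sq]

/-- sublevel sets of positive definite quadratic functions are ellipsoids -/
lemma isEll_of_quad (G : Quad) (hpos : ∀ v : E 3, v ≠ 0 → 0 < G.B v v) (hneg : ∃ x, G.ev x < 0) :
    IsEll 3 {x | G.ev x ≤ 0} := by
  let B : LinearMap.BilinForm ℝ (E 3) := (1 / 2 : ℝ) • (G.B + G.B.flip)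
  have hB : ∀ u v, B u v = (G.B u v + G.B v u) / 2 := by
    intro u v
    simp only [B, LinearMap.smul_apply, LinearMap.add_apply, LinearMap.flip_apply, smul_eq_mul]
    ring
  have hBB : ∀ v, B v v = G.B v v := by
    intro v
    rw [hB]; ring
  obtain ⟨S, hS⟩ := exists_sqrt_form B (fun u v => by rw [hB, hB]; ring)
    (fun u hu => by rw [hBB]; exact hpos u hu)
  -- the centre
  obtain ⟨m, hm⟩ : ∃ m : E 3, ∀ v, 2 * B m v + G.l v = 0 := by
    let f : E 3 →ₗ[ℝ] (E 3 →ₗ[ℝ] ℝ) := (2 : ℝ) • B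
    have hinj : Function.Injective f := by
      rw [← LinearMap.ker_eq_bot, LinearMap.ker_eq_bot']
      intro x hx
      by_contra hx0
      have h1 := congrArg (fun g => g x) hx
      simp only [f, LinearMap.smul_apply, smul_eq_mul, LinearMap.zero_apply] at h1
      have h2 := hpos x hx0
      rw [← hBB] at h2
      linarith
    have hsurj : Function.Surjective f := by
      have hfr : finrank ℝ (E 3) = finrank ℝ (E 3 →ₗ[ℝ] ℝ) := by
        rw [Module.finrank_linearMap, finrank_self, mul_one]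
      exact (LinearMap.injective_iff_surjective_of_finrank_eq_finrank hfr).1 hinj
    obtain ⟨m, hm⟩ := hsurj (-G.l)
    refine ⟨m, fun v => ?_⟩
    have h1 := congrArg (fun g => g v) hm
    simp only [f, LinearMap.smul_apply, smul_eq_mul, LinearMap.neg_apply] at h1
    linarith
  have hlin : ∀ v, G.lin m v = 0 := by
    intro v
    have h1 := hm v
    rw [hB] at h1
    unfold Quad.lin
    linarith
  have hev : ∀ x, G.ev x = ‖S (x - m)‖ ^ 2 + G.ev m := by
    intro x
    have h1 : x = m + (1 : ℝ) • (x - m) := by rw [one_smul]; abel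
    conv_lhs => rw [h1]
    rw [Quad.ev_add_smul, hlin, hS, hBB]
    ring
  obtain ⟨x0, hx0⟩ := hneg
  have hδ : G.ev m < 0 := by
    rw [hev] at hx0
    have := sq_nonneg ‖S (x0 - m)‖
    linarith
  set r := Real.sqrt (-G.ev m) with hr
  have hr0 : 0 < r := Real.sqrt_pos.2 (by linarith)
  have hr2 : r ^ 2 = -G.ev m := Real.sq_sqrt (by linarith)
  let T : E 3 ≃ₗ[ℝ] E 3 := S.symm.trans (LinearEquiv.smulOfNeZero ℝ (E 3) r hr0.ne')
  have hT : ∀ y, T y = r • S.symm y := fun y => rfl
  refine ⟨T, m, ?_⟩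
  ext x
  simp only [mem_image, mem_closedBall_zero_iff]
  have key : G.ev x ≤ 0 ↔ ‖S (x - m)‖ ≤ r := by
    rw [hev, ← abs_of_nonneg (norm_nonneg (S (x - m))), ← abs_of_pos hr0]
    have : ‖S (x - m)‖ ^ 2 + G.ev m ≤ 0 ↔ ‖S (x - m)‖ ^ 2 ≤ r ^ 2 := by
      rw [hr2]
      constructor <;> intro h <;> linarith
    rw [abs_of_nonneg (norm_nonneg (S (x - m))), abs_of_pos hr0, this]
    exact sq_le_sq₀ (norm_nonneg _) hr0.le
  constructor
  · intro hx
    have hx' := key.1 hx
    refine ⟨r⁻¹ • S (x - m), ?_, ?_⟩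
    · rw [norm_smul, norm_inv, Real.norm_eq_abs, abs_of_pos hr0, inv_mul_le_iff₀ hr0, mul_one]
      exact hx'
    · rw [hT, map_smul, smul_smul, mul_inv_cancel₀ hr0.ne', one_smul, LinearEquiv.symm_apply_apply]
      abel
  · rintro ⟨y, hy, rfl⟩
    apply key.2
    rw [add_sub_cancel_left, hT, map_smul, LinearEquiv.apply_symm_apply, norm_smul,
      Real.norm_eq_abs, abs_of_pos hr0]
    calc r * ‖y‖ ≤ r * 1 := mul_le_mul_of_nonneg_left hy hr0.le
      _ = r := mul_one r

/-- a body all of whose outer supporting-plane sections are described by one positive definite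
quadratic function -/
theorem isEll_of_cover {K K1 : Set (E 3)} (b : Body K K1) (G : Quad)
    (hpos : ∀ v : E 3, v ≠ 0 → 0 < G.B v v)
    (hcov : ∀ x, x ∉ K → ∃ u, u ≠ 0 ∧ ⟪u, x⟫ = supp K u ∧ EllAt K K1 u G) : IsEll 3 K1 := by
  have hout : ∀ x, x ∉ K → (x ∈ K1 ↔ G.ev x ≤ 0) := by
    intro x hx
    obtain ⟨u, hu, hux, hE⟩ := hcov x hx
    exact hE.iff x hux
  -- convexity along lines
  have hcvx : ∀ x y : E 3, ∀ t : ℝ, 0 ≤ t → t ≤ 1 → G.ev x ≤ 0 → G.ev y ≤ 0 →
      G.ev (x + t • (y - x)) ≤ 0 := by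
    intro x y t ht0 ht1 hx hy
    have h1 : G.ev y = G.B (y - x) (y - x) + G.lin x (y - x) + G.ev x := by
      have h2 : y = x + (1 : ℝ) • (y - x) := by rw [one_smul]; abel
      conv_lhs => rw [h2]
      rw [Quad.ev_add_smul]; ring
    have h3 : 0 ≤ G.B (y - x) (y - x) := by
      rcases eq_or_ne (y - x) 0 with h | h
      · rw [h]; simp
      · exact (hpos _ h).le
    rw [Quad.ev_add_smul]
    have h4 : G.B (y - x) (y - x) * t ^ 2 + G.lin x (y - x) * t + G.ev x =
        (1 - t) * G.ev x + t * G.ev y - G.B (y - x) (y - x) * (t * (1 - t)) := by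
      rw [h1]; ring
    rw [h4]
    have h5 : (1 - t) * G.ev x ≤ 0 := mul_nonpos_of_nonneg_of_nonpos (by linarith) hx
    have h6 : t * G.ev y ≤ 0 := mul_nonpos_of_nonneg_of_nonpos ht0 hy
    have h7 : 0 ≤ G.B (y - x) (y - x) * (t * (1 - t)) :=
      mul_nonneg h3 (mul_nonneg ht0 (by linarith))
    linarith
  -- points of K
  have hin : ∀ x ∈ K, G.ev x ≤ 0 := by
    intro x hx
    obtain ⟨y, hy0⟩ : ∃ y : E 3, y ≠ 0 := exists_ne 0
    -- the two exit points of the line
    have hexit : ∀ s : ℝ, (s = 1 ∨ s = -1) → ∃ t : ℝ, 0 < t ∧ x + (s * t) • y ∈ frontier K1 := by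
      intro s hs
      have hK1b := b.kK1.isBounded
      obtain ⟨R, hR, hRK⟩ := exists_bound b.kK1
      have hyn : 0 < ‖y‖ := norm_pos_iff.2 hy0
      set T := (R + ‖x‖ + 1) / ‖y‖ with hT
      have hT0 : 0 < T := by positivity
      have hsabs : |s| = 1 := by rcases hs with rfl | rfl <;> simp
      have h1 : x + (s * T) • y ∉ K1 := by
        intro h
        have h2 := hRK _ h
        have h3 : ‖(s * T) • y‖ = R + ‖x‖ + 1 := by
          rw [norm_smul, Real.norm_eq_abs, abs_mul, hsabs, one_mul, abs_of_pos hT0, hT]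
          field_simp
        have h4 : ‖(s * T) • y‖ ≤ ‖x + (s * T) • y‖ + ‖x‖ := by
          have := norm_sub_le (x + (s * T) • y) x
          rwa [add_sub_cancel_left] at this
        linarith
      let γ : ℝ → E 3 := fun t => x + (s * t) • y
      have hγ : Continuous γ := by fun_prop
      -- the preconnected set [0,T] meets the frontier
      have h5 : (γ '' Icc 0 T ∩ frontier K1).Nonempty := by
        have hpre : IsPreconnected (γ '' Icc 0 T) := (isPreconnected_Icc).image _ hγ.continuousOn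
        by_contra hemp
        rw [not_nonempty_iff_eq_empty] at hemp
        obtain ⟨y', -, hy1, hy2⟩ := hpre (interior K1) K1ᶜ isOpen_interior
          b.kK1.isClosed.isOpen_compl (by
            intro z hz
            by_cases hzi : z ∈ interior K1
            · exact Or.inl hzi
            · right
              intro hzK
              have : z ∈ γ '' Icc 0 T ∩ frontier K1 :=
                ⟨hz, by rw [b.kK1.isClosed.frontier_eq]; exact ⟨hzK, hzi⟩⟩
              rw [hemp] at this
              exact this)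
          ⟨x, ⟨0, ⟨le_rfl, hT0.le⟩, by simp [γ]⟩, b.sub hx⟩
          ⟨_, ⟨T, ⟨hT0.le, le_rfl⟩, rfl⟩, h1⟩
        exact hy2 (interior_subset hy1)
      obtain ⟨_, ⟨t, ht, rfl⟩, hf⟩ := h5
      refine ⟨t, ?_, hf⟩
      rcases eq_or_lt_of_le ht.1 with h0 | h0
      · exfalso
        rw [← h0] at hf
        have : γ 0 = x := by simp [γ]
        rw [this, b.kK1.isClosed.frontier_eq] at hf
        exact hf.2 (b.sub hx)
      · exact h0
    obtain ⟨t1, ht1, hf1⟩ := hexit 1 (Or.inl rfl)
    obtain ⟨t2, ht2, hf2⟩ := hexit (-1) (Or.inr rfl)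
    have hfK : frontier K1 ⊆ K1 := b.kK1.isClosed.frontier_subset
    have g1 := (hout _ (front_notMem b hf1)).1 (hfK hf1)
    have g2 := (hout _ (front_notMem b hf2)).1 (hfK hf2)
    have h8 := hcvx _ _ (t2 / (t1 + t2)) (by positivity)
      (by rw [div_le_one (by positivity)]; linarith) g2 g1
    have h9 : x + ((-1 : ℝ) * t2) • y + (t2 / (t1 + t2)) • (x + ((1 : ℝ) * t1) • y -
        (x + ((-1 : ℝ) * t2) • y)) = x := by
      have e1 : x + ((1 : ℝ) * t1) • y - (x + ((-1 : ℝ) * t2) • y) = (t1 + t2) • y := by module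
      rw [e1, smul_smul, div_mul_cancel₀ _ (by positivity)]
      module
    rwa [h9] at h8
  have heq : K1 = {x | G.ev x ≤ 0} := by
    ext x
    by_cases hx : x ∈ K
    · exact ⟨fun _ => hin x hx, fun _ => interior_subset (b.sub hx)⟩
    · exact hout x hx
  rw [heq]
  apply isEll_of_quad G hpos
  -- a point with negative value
  obtain ⟨x0, hx0⟩ : ∃ x : E 3, x ∉ K := by
    by_contra h
    push Not at h
    have h1 : K = univ := eq_univ_of_forall h
    have h2 := b.kK
    rw [h1] at h2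
    exact noncompact_univ (E 3) h2
  obtain ⟨u, hu, -, hE⟩ := hcov x0 hx0
  obtain ⟨z, hzK, hz⟩ := exists_supp b.kK b.neK u
  exact ⟨z, (hE.neg_iff b hu hz).1 (b.sub hzK)⟩

/-- **Part E**: if all sections of `K1` by supporting planes of `K` are ellipses, then `K1` is an
ellipsoid. -/
theorem isEll_of_all {K K1 : Set (E 3)} (b : Body K K1)
    (hE : ∀ u : E 3, u ≠ 0 → ∃ q, EllAt K K1 u q) : IsEll 3 K1 := by
  have hpre : IsPreconnected ({(0 : E 3)}ᶜ) := by
    refine (isConnected_compl_singleton_of_one_lt_rank ?_ 0).isPreconnected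
    rw [← Module.finrank_eq_rank, finrank_euclideanSpace_fin]
    norm_num
  obtain ⟨G, hG⟩ := exists_quadric b (U := {(0 : E 3)}ᶜ) isOpen_compl_singleton hpre (by simp)
    (fun u hu => hE u (by simpa using hu))
  apply isEll_of_cover b G
  · intro v hv
    obtain ⟨e, f, hef, he, hf, -⟩ := exists_perp_basis v hv
    have he0 := ne_zero_left hef
    exact (hG e (by simpa using he0)).pos v (by rw [real_inner_comm]; exact he) hv
  · intro x hx
    obtain ⟨u, hu, hux⟩ := exists_through b hx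
    exact ⟨u, hu, hux, hG u (by simpa using hu)⟩

end Pool.Agent.Helper14.BL
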