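import Pool.Agent.Helper14.BL.Planes

/-!
Barker–Larman (MP_70efd9_gt), part E: local quadric through elliptical sections (helper14).
-/

open Set Metric Module
open scoped RealInnerProductSpace

namespace Pool.Agent.Helper14.BL

lemma exists_dual {u v : E 3} (h : LinearIndependent ℝ ![u, v]) :
    ∃ w : E 3, ⟪u, w⟫ = 1 ∧ ⟪v, w⟫ = 0 := by
  have hli := LinearIndependent.pair_iff.1 h
  have hv0 : v ≠ 0 := by
    intro h0
    have := (hli 0 1 (by simp [h0])).2
    norm_num at this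
  have hvv : 0 < ‖v‖ ^ 2 := by positivity
  obtain ⟨w, hw⟩ : ∃ w : E 3, w = (‖v‖ ^ 2) • u - ⟪v, u⟫ • v := ⟨_, rfl⟩
  have hvw : ⟪v, w⟫ = 0 := by
    rw [hw, inner_sub_right, inner_smul_right, inner_smul_right, real_inner_self_eq_norm_sq]
    ring
  have hw0 : w ≠ 0 := by
    intro h0
    have := (hli (‖v‖ ^ 2) (-⟪v, u⟫) (by rw [neg_smul, ← sub_eq_add_neg, ← hw, h0])).1
    exact hvv.ne' this
  have hww : ‖w‖ ^ 2 = ‖v‖ ^ 2 * ⟪u, w⟫ := by
    rw [← real_inner_self_eq_norm_sq]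
    have e : ⟪(‖v‖ ^ 2) • u - ⟪v, u⟫ • v, w⟫ = ‖v‖ ^ 2 * ⟪u, w⟫ := by
      rw [inner_sub_left, real_inner_smul_left, real_inner_smul_left, hvw]
      ring
    rwa [← hw] at e
  have huw : ⟪u, w⟫ ≠ 0 := by
    intro h0
    rw [h0, mul_zero] at hww
    exact hw0 (norm_eq_zero.1 (pow_eq_zero_iff two_ne_zero |>.1 hww))
  refine ⟨(⟪u, w⟫)⁻¹ • w, ?_, ?_⟩
  · rw [inner_smul_right, inv_mul_cancel₀ huw]
  · rw [inner_smul_right, hvw, mul_zero]

lemma LinInd.swap {u v : E 3} (h : LinearIndependent ℝ ![u, v]) : LinearIndependent ℝ ![v, u] := by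
  rw [LinearIndependent.pair_iff] at h ⊢
  intro s t hst
  rw [add_comm] at hst
  exact (h t s hst).symm

/-- two conics in intersecting planes which agree on the common line lie on a quadric -/
lemma pencil {u v : E 3} (hli : LinearIndependent ℝ ![u, v]) (h k : ℝ) (q1 q2 : Quad)
    (heq : ∀ x, ⟪u, x⟫ = h → ⟪v, x⟫ = k → q1.ev x = q2.ev x) :
    ∃ G : Quad, (∀ x, ⟪u, x⟫ = h → G.ev x = q1.ev x) ∧ (∀ x, ⟪v, x⟫ = k → G.ev x = q2.ev x) := by
  obtain ⟨w1, hw1, hw1'⟩ := exists_dual hli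
  obtain ⟨w2, hw2, hw2'⟩ := exists_dual (LinInd.swap hli)
  let L1 : E 3 →ₗ[ℝ] E 3 := LinearMap.id - ((innerₗ (E 3)) u).smulRight w1
  let L2 : E 3 →ₗ[ℝ] E 3 := LinearMap.id - ((innerₗ (E 3)) v).smulRight w2
  have hL1 : ∀ x, L1 x + h • w1 = x - (⟪u, x⟫ - h) • w1 := by
    intro x
    simp only [L1, LinearMap.sub_apply, LinearMap.id_apply, LinearMap.smulRight_apply,
      innerₗ_apply_apply]
    module
  have hL2 : ∀ x, L2 x + k • w2 = x - (⟪v, x⟫ - k) • w2 := by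
    intro x
    simp only [L2, LinearMap.sub_apply, LinearMap.id_apply, LinearMap.smulRight_apply,
      innerₗ_apply_apply]
    module
  let G : Quad := Quad.add (Quad.add (q1.comp L1 (h • w1)) (q2.comp L2 (k • w2)))
    (Quad.smul (-1) ((q1.comp L1 (h • w1)).comp L2 (k • w2)))
  have hG : ∀ x, G.ev x = q1.ev (x - (⟪u, x⟫ - h) • w1) + q2.ev (x - (⟪v, x⟫ - k) • w2)
      - q1.ev ((x - (⟪v, x⟫ - k) • w2) - (⟪u, x - (⟪v, x⟫ - k) • w2⟫ - h) • w1) := by
    intro x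
    simp only [G, Quad.add_ev, Quad.smul_ev, Quad.comp_ev, hL1, hL2]
    ring
  refine ⟨G, ?_, ?_⟩
  · intro x hx
    rw [hG, hx, sub_self, zero_smul, sub_zero]
    have h1 : ⟪u, x - (⟪v, x⟫ - k) • w2⟫ = h := by
      rw [inner_sub_right, inner_smul_right, hw2', hx]; ring
    have h2 : ⟪v, x - (⟪v, x⟫ - k) • w2⟫ = k := by
      rw [inner_sub_right, inner_smul_right, hw2]; ring
    rw [h1, sub_self, zero_smul, sub_zero, heq _ h1 h2]
    ring
  · intro x hx
    rw [hG, hx, sub_self, zero_smul, sub_zero]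
    ring

section

variable {K K1 : Set (E 3)} {u : E 3} {q : Quad}

lemma EllAt.of_eq (b : Body K K1) (h : EllAt K K1 u q) {G : Quad} {r : ℝ}
    (hr : 0 < r) (hG : ∀ x, ⟪u, x⟫ = supp K u → G.ev x = r * q.ev x) : EllAt K K1 u G := by
  constructor
  · intro v hv hv0
    obtain ⟨z, -, hz⟩ := exists_supp b.kK b.neK u
    have h1 : ∀ t : ℝ, G.ev (z + t • v) = r * q.ev (z + t • v) := by
      intro t
      apply hG
      rw [inner_add_right, inner_smul_right, hv, mul_zero, add_zero, hz]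
    have e1 := h1 1
    have e2 := h1 (-1)
    have e3 := h1 0
    simp only [Quad.ev_add_smul] at e1 e2 e3
    have e4 : G.B v v = r * q.B v v := by linarith
    rw [e4]
    exact mul_pos hr (h.pos v hv hv0)
  · intro x hx
    rw [h.iff x hx, hG x hx]
    constructor
    · intro h1
      exact mul_nonpos_of_nonneg_of_nonpos hr.le h1
    · intro h1
      by_contra h2
      push Not at h2
      have := mul_pos hr h2
      linarith

lemma EllAt.five (b : Body K K1) (hu : u ≠ 0) (h : EllAt K K1 u q) (G : Quad) (F : Finset (E 3))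
    (hF : 5 ≤ F.card) (hF1 : ∀ x ∈ F, x ∈ frontier K1 ∧ ⟪u, x⟫ = supp K u ∧ G.ev x = 0) :
    ∃ l : ℝ, ∀ x, ⟪u, x⟫ = supp K u → G.ev x = l * q.ev x := by
  obtain ⟨z, hzK, hz⟩ := exists_supp b.kK b.neK u
  have hzn := (h.neg_iff b hu hz).1 (b.sub hzK)
  refine five_points q G u hu h.pos _ z hz hzn F hF ?_
  intro x hx
  obtain ⟨h1, h2, h3⟩ := hF1 x hx
  exact ⟨h2, (h.front_iff b hu h2).1 h1, h3⟩

lemma EllAt.exists_five (b : Body K K1) (hu : u ≠ 0) (h : EllAt K K1 u q) :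
    ∃ F : Finset (E 3), F.card = 5 ∧ ∀ x ∈ F, x ∈ frontier K1 ∧ ⟪u, x⟫ = supp K u := by
  classical
  obtain ⟨z, hzK, hz⟩ := exists_supp b.kK b.neK u
  have hzn := (h.neg_iff b hu hz).1 (b.sub hzK)
  obtain ⟨m, v, w, δ, hδ, hm, hv, hw, hsp, hli, hev⟩ := exists_param q u hu h.pos _ z hz hzn
  have hli' := LinearIndependent.pair_iff.1 hli
  let φ : ℝ × ℝ → E 3 := fun st => m + st.1 • v + st.2 • w
  have hinj : Function.Injective φ := by
    rintro ⟨s, t⟩ ⟨s', t'⟩ hst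
    simp only [φ] at hst
    have h1 : (s - s') • v + (t - t') • w = 0 := by
      have h2 : (s - s') • v + (t - t') • w = (m + s • v + t • w) - (m + s' • v + t' • w) := by
        module
      rw [h2, hst, sub_self]
    obtain ⟨h3, h4⟩ := hli' _ _ h1
    ext
    · simpa using sub_eq_zero.1 h3
    · simpa using sub_eq_zero.1 h4
  let S : Finset (ℝ × ℝ) := {(1, 0), (0, 1), (-1, 0), (0, -1), (3 / 5, 4 / 5)}
  have hS : S.card = 5 := by
    simp only [S]
    rw [Finset.card_insert_of_notMem, Finset.card_insert_of_notMem, Finset.card_insert_of_notMem,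
      Finset.card_insert_of_notMem, Finset.card_singleton] <;> norm_num
  have hS1 : ∀ p ∈ S, p.1 ^ 2 + p.2 ^ 2 = 1 := by
    intro p hp
    simp only [S, Finset.mem_insert, Finset.mem_singleton] at hp
    rcases hp with rfl | rfl | rfl | rfl | rfl <;> norm_num
  refine ⟨S.image φ, ?_, ?_⟩
  · rw [Finset.card_image_of_injective S hinj, hS]
  · intro x hx
    obtain ⟨p, hp, rfl⟩ := Finset.mem_image.1 hx
    have h1 : ⟪u, φ p⟫ = supp K u := by
      simp only [φ]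
      rw [inner_add_right, inner_add_right, inner_smul_right, inner_smul_right, hv, hw, hm]
      ring
    refine ⟨?_, h1⟩
    rw [h.front_iff b hu h1]
    simp only [φ]
    rw [hev, hS1 p hp]
    ring

end

lemma ne_zero_left {u v : E 3} (h : LinearIndependent ℝ ![u, v]) : u ≠ 0 := by
  have := h.ne_zero 0
  simpa using this

lemma ne_zero_right {u v : E 3} (h : LinearIndependent ℝ ![u, v]) : v ≠ 0 := by
  have := h.ne_zero 1
  simpa using this

/-- elliptical sections by two planes: the quadratic functions are proportional on the common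
line -/
lemma EllAt.prop_line {K K1 : Set (E 3)} (b : Body K K1) {u v : E 3}
    (hli : LinearIndependent ℝ ![u, v]) (hm : Meet K K1 u v) {q q' : Quad}
    (h : EllAt K K1 u q) (h' : EllAt K K1 v q') :
    ∃ r : ℝ, 0 < r ∧ ∀ x, ⟪u, x⟫ = supp K u → ⟪v, x⟫ = supp K v → q.ev x = r * q'.ev x := by
  obtain ⟨z, hz1, hz2, hz3⟩ := hm
  obtain ⟨y, hy0, hy1, hy2, hy3⟩ := exists_perp_line hli
  have hu := ne_zero_left hli
  have hv := ne_zero_right hli
  have hα := h.pos y hy1 hy0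
  have hγ := (h.neg_iff b hu hz2).1 hz1
  have hα' := h'.pos y hy2 hy0
  have hγ' := (h'.neg_iff b hv hz3).1 hz1
  obtain ⟨t1, t2, ht1, ht2, ht⟩ := quad_roots (β := q.lin z y) hα hγ
  obtain ⟨s1, s2, hs1, hs2, hs⟩ := quad_roots (β := q'.lin z y) hα' hγ'
  have hHu : ∀ t : ℝ, ⟪u, z + t • y⟫ = supp K u := by
    intro t
    rw [inner_add_right, inner_smul_right, hy1, mul_zero, add_zero, hz2]
  have hHv : ∀ t : ℝ, ⟪v, z + t • y⟫ = supp K v := by
    intro t
    rw [inner_add_right, inner_smul_right, hy2, mul_zero, add_zero, hz3]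
  have key : ∀ t : ℝ, (t - t1) * (t - t2) = 0 → (t - s1) * (t - s2) = 0 := by
    intro t h1
    have h2 : q.ev (z + t • y) = 0 := by rw [Quad.ev_add_smul, ht, h1, mul_zero]
    have h3 := (h.front_iff b hu (hHu t)).2 h2
    have h4 := (h'.front_iff b hv (hHv t)).1 h3
    rw [Quad.ev_add_smul, hs] at h4
    rcases mul_eq_zero.1 h4 with h5 | h5
    · exact absurd h5 hα'.ne'
    · exact h5
  have e1 : t1 = s1 := by
    rcases mul_eq_zero.1 (key t1 (by ring)) with h1 | h1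
    · linarith
    · exfalso; linarith
  have e2 : t2 = s2 := by
    rcases mul_eq_zero.1 (key t2 (by ring)) with h1 | h1
    · exfalso; linarith
    · linarith
  refine ⟨q.B y y / q'.B y y, by positivity, ?_⟩
  intro x hx1 hx2
  obtain ⟨t, ht'⟩ := hy3 (x - z) (by rw [inner_sub_right, hx1, hz2, sub_self])
    (by rw [inner_sub_right, hx2, hz3, sub_self])
  have hx : x = z + t • y := by rw [← ht']; abel
  rw [hx, Quad.ev_add_smul, Quad.ev_add_smul, ht, hs, e1, e2]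
  field_simp

/-- the factor is positive when two planes meet inside -/
lemma EllAt.of_prop {K K1 : Set (E 3)} (b : Body K K1) {u v : E 3} (hu : u ≠ 0) (hv : v ≠ 0)
    (hm : Meet K K1 u v) {q G : Quad} (h : EllAt K K1 u G) (h' : EllAt K K1 v q) {l : ℝ}
    (hl : ∀ x, ⟪v, x⟫ = supp K v → G.ev x = l * q.ev x) : EllAt K K1 v G := by
  obtain ⟨z, hz1, hz2, hz3⟩ := hm
  have h1 := (h.neg_iff b hu hz2).1 hz1
  have h2 := (h'.neg_iff b hv hz3).1 hz1
  have h3 := hl z hz3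
  have hl0 : 0 < l := by
    by_contra hneg
    push Not at hneg
    have : 0 ≤ l * q.ev z := mul_nonneg_of_nonpos_of_nonpos hneg h2.le
    linarith
  exact h'.of_eq b hl0 hl

/-- no common boundary point of three supporting planes -/
def NoTriple (K K1 : Set (E 3)) (u v w : E 3) : Prop :=
  ∀ x ∈ frontier K1, ¬ (⟪u, x⟫ = supp K u ∧ ⟪v, x⟫ = supp K v ∧ ⟪w, x⟫ = supp K w)

/-- three sections determine a quadric -/
lemma third {K K1 : Set (E 3)} (b : Body K K1) {u1 u2 u3 : E 3}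
    (l12 : LinearIndependent ℝ ![u1, u2]) (l13 : LinearIndependent ℝ ![u1, u3])
    (l23 : LinearIndependent ℝ ![u2, u3]) (m12 : Meet K K1 u1 u2) (m13 : Meet K K1 u1 u3)
    (m23 : Meet K K1 u2 u3) (hno : NoTriple K K1 u1 u2 u3) {q1 q2 q3 : Quad}
    (h1 : EllAt K K1 u1 q1) (h2 : EllAt K K1 u2 q2) (h3 : EllAt K K1 u3 q3) :
    ∃ G : Quad, EllAt K K1 u1 G ∧ EllAt K K1 u2 G ∧ EllAt K K1 u3 G := by
  classical
  have n1 := ne_zero_left l12
  have n2 := ne_zero_right l12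
  have n3 := ne_zero_right l13
  obtain ⟨r, hr, hrl⟩ := EllAt.prop_line b l12 m12 h1 h2
  obtain ⟨G0, hG1, hG2⟩ := pencil l12 (supp K u1) (supp K u2) q1 (Quad.smul r q2) (by
    intro x hx1 hx2
    rw [Quad.smul_ev, hrl x hx1 hx2])
  obtain ⟨a, a', haa, ha⟩ := two_points b l13 m13 h1
  obtain ⟨c, c', hcc, hc⟩ := two_points b l23 m23 h2
  obtain ⟨F5, hF5, hF5'⟩ := h3.exists_five b n3
  have hcard : ({a, a', c, c'} : Finset (E 3)).card < F5.card := by
    rw [hF5]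
    have := Finset.card_le_four (a := a) (b := a') (c := c) (d := c')
    omega
  obtain ⟨x0, hx0, hx0'⟩ := Finset.exists_mem_notMem_of_card_lt_card hcard
  obtain ⟨hx0f, hx03⟩ := hF5' x0 hx0
  simp only [Finset.mem_insert, Finset.mem_singleton, not_or] at hx0'
  obtain ⟨na, na', nc, nc'⟩ := hx0'
  have hx01 : ⟪u1, x0⟫ - supp K u1 ≠ 0 := by
    intro h0
    rcases (ha x0).1 ⟨hx0f, by linarith, hx03⟩ with h | h
    · exact na h
    · exact na' h
  have hx02 : ⟪u2, x0⟫ - supp K u2 ≠ 0 := by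
    intro h0
    rcases (hc x0).1 ⟨hx0f, by linarith, hx03⟩ with h | h
    · exact nc h
    · exact nc' h
  set P0 := (⟪u1, x0⟫ - supp K u1) * (⟪u2, x0⟫ - supp K u2) with hP0
  have hP0' : P0 ≠ 0 := mul_ne_zero hx01 hx02
  let G : Quad := Quad.add G0 (Quad.smul (-(G0.ev x0) / P0)
    (Quad.prod u1 u2 (supp K u1) (supp K u2)))
  have hG : ∀ x, G.ev x = G0.ev x + (-(G0.ev x0) / P0) *
      ((⟪u1, x⟫ - supp K u1) * (⟪u2, x⟫ - supp K u2)) := by
    intro x
    simp only [G, Quad.add_ev, Quad.smul_ev, Quad.prod_ev]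
  have hGx0 : G.ev x0 = 0 := by
    rw [hG, ← hP0]
    field_simp
    ring
  have hGu1 : ∀ x, ⟪u1, x⟫ = supp K u1 → G.ev x = 1 * q1.ev x := by
    intro x hx
    rw [hG, hx, hG1 x hx]
    ring
  have hGu2 : ∀ x, ⟪u2, x⟫ = supp K u2 → G.ev x = r * q2.ev x := by
    intro x hx
    rw [hG, hx, hG2 x hx, Quad.smul_ev]
    ring
  have E1 : EllAt K K1 u1 G := h1.of_eq b one_pos hGu1
  have E2 : EllAt K K1 u2 G := h2.of_eq b hr hGu2
  refine ⟨G, E1, E2, ?_⟩
  have pa := (ha a).2 (Or.inl rfl)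
  have pa' := (ha a').2 (Or.inr rfl)
  have pc := (hc c).2 (Or.inl rfl)
  have pc' := (hc c').2 (Or.inr rfl)
  have nac : ∀ x y, (x ∈ frontier K1 ∧ ⟪u1, x⟫ = supp K u1 ∧ ⟪u3, x⟫ = supp K u3) →
      (y ∈ frontier K1 ∧ ⟪u2, y⟫ = supp K u2 ∧ ⟪u3, y⟫ = supp K u3) → x ≠ y := by
    rintro x y ⟨k1, k2, k3⟩ ⟨k4, k5, k6⟩ rfl
    exact hno x k1 ⟨k2, k5, k3⟩
  obtain ⟨l, hl⟩ := h3.five b n3 G {x0, a, a', c, c'} (by
    rw [Finset.card_insert_of_notMem, Finset.card_insert_of_notMem, Finset.card_insert_of_notMem,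
      Finset.card_insert_of_notMem, Finset.card_singleton]
    · simpa using hcc
    · simp only [Finset.mem_insert, Finset.mem_singleton, not_or]
      exact ⟨nac _ _ pa' pc, nac _ _ pa' pc'⟩
    · simp only [Finset.mem_insert, Finset.mem_singleton, not_or]
      exact ⟨haa, nac _ _ pa pc, nac _ _ pa pc'⟩
    · simp only [Finset.mem_insert, Finset.mem_singleton, not_or]
      exact ⟨na, na', nc, nc'⟩) (by
    intro x hx
    simp only [Finset.mem_insert, Finset.mem_singleton] at hx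
    have hz1 : ∀ y, (y ∈ frontier K1 ∧ ⟪u1, y⟫ = supp K u1 ∧ ⟪u3, y⟫ = supp K u3) →
        y ∈ frontier K1 ∧ ⟪u3, y⟫ = supp K u3 ∧ G.ev y = 0 := by
      rintro y ⟨k1, k2, k3⟩
      exact ⟨k1, k3, (E1.front_iff b n1 k2).1 k1⟩
    have hz2 : ∀ y, (y ∈ frontier K1 ∧ ⟪u2, y⟫ = supp K u2 ∧ ⟪u3, y⟫ = supp K u3) →
        y ∈ frontier K1 ∧ ⟪u3, y⟫ = supp K u3 ∧ G.ev y = 0 := by
      rintro y ⟨k1, k2, k3⟩
      exact ⟨k1, k3, (E2.front_iff b n2 k2).1 k1⟩
    rcases hx with rfl | rfl | rfl | rfl | rfl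
    · exact ⟨hx0f, hx03, hGx0⟩
    · exact hz1 _ pa
    · exact hz1 _ pa'
    · exact hz2 _ pc
    · exact hz2 _ pc')
  exact EllAt.of_prop b n1 n3 m13 E1 h3 hl

/-- propagation to a fourth section -/
lemma fourth {K K1 : Set (E 3)} (b : Body K K1) {u1 u2 u3 u : E 3}
    (l1 : LinearIndependent ℝ ![u1, u]) (l2 : LinearIndependent ℝ ![u2, u])
    (l3 : LinearIndependent ℝ ![u3, u]) (m1 : Meet K K1 u1 u) (m2 : Meet K K1 u2 u)
    (m3 : Meet K K1 u3 u) (t12 : NoTriple K K1 u1 u2 u) (t13 : NoTriple K K1 u1 u3 u)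
    (t23 : NoTriple K K1 u2 u3 u) {G q : Quad}
    (h1 : EllAt K K1 u1 G) (h2 : EllAt K K1 u2 G) (h3 : EllAt K K1 u3 G)
    (h : EllAt K K1 u q) : EllAt K K1 u G := by
  classical
  have n1 := ne_zero_left l1
  have n2 := ne_zero_left l2
  have n3 := ne_zero_left l3
  have n := ne_zero_right l1
  obtain ⟨a, a', haa, ha⟩ := two_points b l1 m1 h1
  obtain ⟨c, c', hcc, hc⟩ := two_points b l2 m2 h2
  obtain ⟨e, e', hee, he⟩ := two_points b l3 m3 h3
  have pa := (ha a).2 (Or.inl rfl)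
  have pa' := (ha a').2 (Or.inr rfl)
  have pc := (hc c).2 (Or.inl rfl)
  have pc' := (hc c').2 (Or.inr rfl)
  have pe := (he e).2 (Or.inl rfl)
  have nac : ∀ v w x y, NoTriple K K1 v w u →
      (x ∈ frontier K1 ∧ ⟪v, x⟫ = supp K v ∧ ⟪u, x⟫ = supp K u) →
      (y ∈ frontier K1 ∧ ⟪w, y⟫ = supp K w ∧ ⟪u, y⟫ = supp K u) → x ≠ y := by
    rintro v w x y hn ⟨k1, k2, k3⟩ ⟨k4, k5, k6⟩ rfl
    exact hn x k1 ⟨k2, k5, k3⟩
  obtain ⟨l, hl⟩ := h.five b n G {a, a', c, c', e} (by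
    rw [Finset.card_insert_of_notMem, Finset.card_insert_of_notMem, Finset.card_insert_of_notMem,
      Finset.card_insert_of_notMem, Finset.card_singleton]
    · simpa using nac _ _ _ _ t23 pc' pe
    · simp only [Finset.mem_insert, Finset.mem_singleton, not_or]
      exact ⟨hcc, nac _ _ _ _ t23 pc pe⟩
    · simp only [Finset.mem_insert, Finset.mem_singleton, not_or]
      exact ⟨nac _ _ _ _ t12 pa' pc, nac _ _ _ _ t12 pa' pc', nac _ _ _ _ t13 pa' pe⟩
    · simp only [Finset.mem_insert, Finset.mem_singleton, not_or]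
      exact ⟨haa, nac _ _ _ _ t12 pa pc, nac _ _ _ _ t12 pa pc', nac _ _ _ _ t13 pa pe⟩) (by
    intro x hx
    simp only [Finset.mem_insert, Finset.mem_singleton] at hx
    have hz : ∀ v y, v ≠ 0 → EllAt K K1 v G →
        (y ∈ frontier K1 ∧ ⟪v, y⟫ = supp K v ∧ ⟪u, y⟫ = supp K u) →
        y ∈ frontier K1 ∧ ⟪u, y⟫ = supp K u ∧ G.ev y = 0 := by
      rintro v y hv hE ⟨k1, k2, k3⟩
      exact ⟨k1, k3, (hE.front_iff b hv k2).1 k1⟩
    rcases hx with rfl | rfl | rfl | rfl | rfl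
    · exact hz _ _ n1 h1 pa
    · exact hz _ _ n1 h1 pa'
    · exact hz _ _ n2 h2 pc
    · exact hz _ _ n2 h2 pc'
    · exact hz _ _ n3 h3 pe)
  exact EllAt.of_prop b n1 n m1 h1 h hl

lemma Meet.smul {K K1 : Set (E 3)} (b : Body K K1) {u v : E 3} {s t : ℝ} (hs : 0 ≤ s) (ht : 0 ≤ t)
    (h : Meet K K1 u v) : Meet K K1 (s • u) (t • v) := by
  obtain ⟨z, h1, h2, h3⟩ := h
  refine ⟨z, h1, ?_, ?_⟩
  · rw [real_inner_smul_left, supp_smul b.kK b.neK u hs, h2]
  · rw [real_inner_smul_left, supp_smul b.kK b.neK v ht, h3]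

/-- near `u0` all pairs of supporting planes meet inside `K1` -/
lemma exists_meet_nhds {K K1 : Set (E 3)} (b : Body K K1) {U : Set (E 3)} (hU : IsOpen U)
    {u0 : E 3} (hu0 : u0 ∈ U) (h0 : u0 ≠ 0) : ∃ V : Set (E 3), IsOpen V ∧ u0 ∈ V ∧ V ⊆ U ∧
      (∀ u ∈ V, u ≠ 0) ∧ ∀ u ∈ V, ∀ v ∈ V, Meet K K1 u v := by
  obtain ⟨ε, hε, hmeet⟩ := exists_meet b
  let f : E 3 → E 3 := fun u => ‖u‖⁻¹ • u
  have hf : ContinuousOn f ({0}ᶜ : Set (E 3)) := by
    refine ContinuousOn.smul (f := fun u : E 3 => ‖u‖⁻¹) (g := fun u : E 3 => u) ?_ continuousOn_id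
    apply ContinuousOn.inv₀ continuous_norm.continuousOn
    intro x hx
    simpa using hx
  have hopen : IsOpen (({0}ᶜ : Set (E 3)) ∩ f ⁻¹' (ball (f u0) (ε / 2))) :=
    hf.isOpen_inter_preimage isOpen_compl_singleton isOpen_ball
  refine ⟨U ∩ (({0}ᶜ : Set (E 3)) ∩ f ⁻¹' (ball (f u0) (ε / 2))), hU.inter hopen,
    ⟨hu0, by simpa using h0, by simp [hε]⟩, inter_subset_left, ?_, ?_⟩
  · rintro u ⟨-, hu, -⟩
    simpa using hu
  · rintro u ⟨-, hu, hu'⟩ v ⟨-, hv, hv'⟩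
    have hu1 : u ≠ 0 := by simpa using hu
    have hv1 : v ≠ 0 := by simpa using hv
    have hnu : 0 < ‖u‖ := norm_pos_iff.2 hu1
    have hnv : 0 < ‖v‖ := norm_pos_iff.2 hv1
    have h1 : ‖f u‖ = 1 := by
      simp only [f]
      rw [norm_smul, norm_inv, norm_norm, inv_mul_cancel₀ hnu.ne']
    have h2 : ‖f v‖ = 1 := by
      simp only [f]
      rw [norm_smul, norm_inv, norm_norm, inv_mul_cancel₀ hnv.ne']
    have h3 : ‖f u - f v‖ < ε := by
      rw [mem_preimage, mem_ball, dist_eq_norm] at hu' hv'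
      have : f u - f v = (f u - f u0) - (f v - f u0) := by abel
      rw [this]
      have := norm_sub_le (f u - f u0) (f v - f u0)
      linarith
    have h4 := (hmeet _ _ h1 h2 h3).smul b hnu.le hnv.le
    have h5 : ‖u‖ • f u = u := by
      simp only [f]
      rw [smul_smul, mul_inv_cancel₀ hnu.ne', one_smul]
    have h6 : ‖v‖ • f v = v := by
      simp only [f]
      rw [smul_smul, mul_inv_cancel₀ hnv.ne', one_smul]
    rwa [h5, h6] at h4

lemma front_notMem {K K1 : Set (E 3)} (b : Body K K1) {x : E 3} (hx : x ∈ frontier K1) : x ∉ K := by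
  intro h
  rw [b.kK1.isClosed.frontier_eq] at hx
  exact hx.2 (b.sub h)

/-- **local quadric lemma** -/
lemma local_quadric {K K1 : Set (E 3)} (b : Body K K1) {U : Set (E 3)} (hU : IsOpen U)
    (hE : ∀ u ∈ U, ∃ q, EllAt K K1 u q) {u0 : E 3} (hu0 : u0 ∈ U) (h0 : u0 ≠ 0) :
    ∃ V : Set (E 3), IsOpen V ∧ u0 ∈ V ∧ V ⊆ U ∧ (∀ u ∈ V, u ≠ 0) ∧
      ∃ G : Quad, ∀ u ∈ V, EllAt K K1 u G := by
  classical
  obtain ⟨V, hV, huV, hVU, hV0, hmeet⟩ := exists_meet_nhds b hU hu0 h0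
  refine ⟨V, hV, huV, hVU, hV0, ?_⟩
  -- first two planes
  obtain ⟨u2, hu2, -, l2⟩ := exists_avoid b hV ⟨u0, huV⟩ ∅ {u0} (by simp)
    (by simpa using h0)
  have l12 : LinearIndependent ℝ ![u0, u2] := l2 u0 (by simp)
  obtain ⟨q1, h1⟩ := hE u0 hu0
  obtain ⟨q2, h2⟩ := hE u2 (hVU hu2)
  obtain ⟨a, a', -, ha⟩ := two_points b l12 (hmeet _ huV _ hu2) h1
  have hout : ∀ {u v p p' : E 3}, (∀ x, (x ∈ frontier K1 ∧ ⟪u, x⟫ = supp K u ∧
      ⟪v, x⟫ = supp K v) ↔ (x = p ∨ x = p')) → p ∉ K ∧ p' ∉ K := by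
    intro u v p p' hp
    exact ⟨front_notMem b ((hp p).2 (Or.inl rfl)).1, front_notMem b ((hp p').2 (Or.inr rfl)).1⟩
  have hnt : ∀ {u v w p p' : E 3}, (∀ x, (x ∈ frontier K1 ∧ ⟪u, x⟫ = supp K u ∧
      ⟪v, x⟫ = supp K v) ↔ (x = p ∨ x = p')) → ⟪w, p⟫ ≠ supp K w → ⟪w, p'⟫ ≠ supp K w →
      NoTriple K K1 u v w := by
    rintro u v w p p' hp hw hw' x hx ⟨k1, k2, k3⟩
    rcases (hp x).1 ⟨hx, k1, k2⟩ with rfl | rfl
    · exact hw k3
    · exact hw' k3
  -- third plane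
  obtain ⟨u3, hu3, f3, l3⟩ := exists_avoid b hV ⟨u0, huV⟩ {a, a'} {u0, u2}
    (by
      intro p hp
      simp only [Finset.mem_insert, Finset.mem_singleton] at hp
      rcases hp with rfl | rfl
      · exact (hout ha).1
      · exact (hout ha).2)
    (by
      intro w hw
      simp only [Finset.mem_insert, Finset.mem_singleton] at hw
      rcases hw with rfl | rfl
      · exact h0
      · exact hV0 _ hu2)
  obtain ⟨q3, h3⟩ := hE u3 (hVU hu3)
  have l13 : LinearIndependent ℝ ![u0, u3] := l3 u0 (by simp)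
  have l23 : LinearIndependent ℝ ![u2, u3] := l3 u2 (by simp)
  obtain ⟨G, E1, E2, E3⟩ := third b l12 l13 l23 (hmeet _ huV _ hu2) (hmeet _ huV _ hu3)
    (hmeet _ hu2 _ hu3) (hnt ha (f3 a (by simp)) (f3 a' (by simp))) h1 h2 h3
  obtain ⟨c, c', -, hc⟩ := two_points b l13 (hmeet _ huV _ hu3) h1
  obtain ⟨e, e', -, he⟩ := two_points b l23 (hmeet _ hu2 _ hu3) h2
  refine ⟨G, fun u hu => ?_⟩
  obtain ⟨q, hq⟩ := hE u (hVU hu)
  -- good planes
  have hgood : ∀ w ∈ V, (∀ p ∈ ({a, a', c, c', e, e'} : Finset _), ⟪w, p⟫ ≠ supp K w) →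
      (∀ v ∈ ({u0, u2, u3} : Finset _), LinearIndependent ℝ ![v, w]) → EllAt K K1 w G := by
    intro w hw hp hl
    obtain ⟨q', hq'⟩ := hE w (hVU hw)
    exact fourth b (hl u0 (by simp)) (hl u2 (by simp)) (hl u3 (by simp)) (hmeet _ huV _ hw)
      (hmeet _ hu2 _ hw) (hmeet _ hu3 _ hw) (hnt ha (hp a (by simp)) (hp a' (by simp)))
      (hnt hc (hp c (by simp)) (hp c' (by simp))) (hnt he (hp e (by simp)) (hp e' (by simp)))
      E1 E2 E3 hq'
  have hbase : ∀ p ∈ ({a, a', c, c', e, e'} : Finset _), p ∉ K := by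
    intro p hp
    simp only [Finset.mem_insert, Finset.mem_singleton] at hp
    rcases hp with rfl | rfl | rfl | rfl | rfl | rfl
    · exact (hout ha).1
    · exact (hout ha).2
    · exact (hout hc).1
    · exact (hout hc).2
    · exact (hout he).1
    · exact (hout he).2
  -- fourth plane
  obtain ⟨u4, hu4, f4, l4⟩ := exists_avoid b hV ⟨u0, huV⟩ {a, a', c, c', e, e'} {u0, u2, u3, u}
    hbase
    (by
      intro w hw
      simp only [Finset.mem_insert, Finset.mem_singleton] at hw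
      rcases hw with rfl | rfl | rfl | rfl
      · exact h0
      · exact hV0 _ hu2
      · exact hV0 _ hu3
      · exact hV0 _ hu)
  have E4 : EllAt K K1 u4 G := hgood u4 hu4 f4 (by
    intro v hv
    apply l4
    simp only [Finset.mem_insert, Finset.mem_singleton] at hv ⊢
    tauto)
  have lu4 : LinearIndependent ℝ ![u, u4] := l4 u (by simp)
  obtain ⟨g, g', -, hg⟩ := two_points b (LinInd.swap lu4) (hmeet _ hu4 _ hu) E4
  -- fifth plane
  obtain ⟨u5, hu5, f5, l5⟩ := exists_avoid b hV ⟨u0, huV⟩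
    ({a, a', c, c', e, e'} ∪ {g, g'}) {u0, u2, u3, u, u4}
    (by
      intro p hp
      rcases Finset.mem_union.1 hp with hp | hp
      · exact hbase p hp
      · simp only [Finset.mem_insert, Finset.mem_singleton] at hp
        rcases hp with rfl | rfl
        · exact (hout hg).1
        · exact (hout hg).2)
    (by
      intro w hw
      simp only [Finset.mem_insert, Finset.mem_singleton] at hw
      rcases hw with rfl | rfl | rfl | rfl | rfl
      · exact h0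
      · exact hV0 _ hu2
      · exact hV0 _ hu3
      · exact hV0 _ hu
      · exact hV0 _ hu4)
  have E5 : EllAt K K1 u5 G := hgood u5 hu5
    (fun p hp => f5 p (Finset.mem_union_left _ hp)) (by
    intro v hv
    apply l5
    simp only [Finset.mem_insert, Finset.mem_singleton] at hv ⊢
    tauto)
  have lu5 : LinearIndependent ℝ ![u, u5] := l5 u (by simp)
  obtain ⟨k, k', -, hk⟩ := two_points b (LinInd.swap lu5) (hmeet _ hu5 _ hu) E5
  -- sixth plane
  obtain ⟨u6, hu6, f6, l6⟩ := exists_avoid b hV ⟨u0, huV⟩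
    (({a, a', c, c', e, e'} ∪ {g, g'}) ∪ {k, k'}) {u0, u2, u3, u}
    (by
      intro p hp
      rcases Finset.mem_union.1 hp with hp | hp
      · rcases Finset.mem_union.1 hp with hp | hp
        · exact hbase p hp
        · simp only [Finset.mem_insert, Finset.mem_singleton] at hp
          rcases hp with rfl | rfl
          · exact (hout hg).1
          · exact (hout hg).2
      · simp only [Finset.mem_insert, Finset.mem_singleton] at hp
        rcases hp with rfl | rfl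
        · exact (hout hk).1
        · exact (hout hk).2)
    (by
      intro w hw
      simp only [Finset.mem_insert, Finset.mem_singleton] at hw
      rcases hw with rfl | rfl | rfl | rfl
      · exact h0
      · exact hV0 _ hu2
      · exact hV0 _ hu3
      · exact hV0 _ hu)
  have E6 : EllAt K K1 u6 G := hgood u6 hu6
    (fun p hp => f6 p (Finset.mem_union_left _ (Finset.mem_union_left _ hp))) (by
    intro v hv
    apply l6
    simp only [Finset.mem_insert, Finset.mem_singleton] at hv ⊢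
    tauto)
  have lu6 : LinearIndependent ℝ ![u, u6] := l6 u (by simp)
  have t45 : NoTriple K K1 u4 u5 u := by
    intro x hx hxx
    exact hnt hg (f5 g (by simp)) (f5 g' (by simp)) x hx ⟨hxx.1, hxx.2.2, hxx.2.1⟩
  have t46 : NoTriple K K1 u4 u6 u := by
    intro x hx hxx
    exact hnt hg (f6 g (by simp)) (f6 g' (by simp)) x hx ⟨hxx.1, hxx.2.2, hxx.2.1⟩
  have t56 : NoTriple K K1 u5 u6 u := by
    intro x hx hxx
    exact hnt hk (f6 k (by simp)) (f6 k' (by simp)) x hx ⟨hxx.1, hxx.2.2, hxx.2.1⟩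
  exact fourth b (LinInd.swap lu4) (LinInd.swap lu5) (LinInd.swap lu6) (hmeet _ hu4 _ hu)
    (hmeet _ hu5 _ hu) (hmeet _ hu6 _ hu) t45 t46 t56 E4 E5 E6 hq

/-- a quadratic function vanishing on a ball vanishes -/
lemma Quad.eq_zero_of_ball (G : Quad) (p : E 3) {r : ℝ} (hr : 0 < r)
    (h : ∀ x ∈ ball p r, G.ev x = 0) (x : E 3) : G.ev x = 0 := by
  rcases eq_or_ne x p with rfl | hxp
  · exact h x (mem_ball_self hr)
  · have hn : 0 < ‖x - p‖ := norm_pos_iff.2 (sub_ne_zero.2 hxp)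
    set δ := r / (2 * ‖x - p‖) with hδ
    have hδ0 : 0 < δ := by positivity
    have h1 : ∀ t : ℝ, |t| ≤ δ → G.B (x - p) (x - p) * t ^ 2 + G.lin p (x - p) * t + G.ev p = 0 := by
      intro t ht
      rw [← Quad.ev_add_smul]
      apply h
      rw [mem_ball, dist_eq_norm, add_sub_cancel_left, norm_smul, Real.norm_eq_abs]
      calc |t| * ‖x - p‖ ≤ δ * ‖x - p‖ := mul_le_mul_of_nonneg_right ht hn.le
        _ = r / 2 := by rw [hδ]; field_simp
        _ < r := by linarith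
    have e0 := h1 0 (by simpa using hδ0.le)
    have e1 := h1 δ (by rw [abs_of_pos hδ0])
    have e2 := h1 (-δ) (by rw [abs_neg, abs_of_pos hδ0])
    have e3 : G.ev p = 0 := by linarith
    have e4 : G.B (x - p) (x - p) * δ ^ 2 = 0 := by nlinarith
    have e5 : G.B (x - p) (x - p) = 0 := by
      rcases mul_eq_zero.1 e4 with h2 | h2
      · exact h2
      · exact absurd (pow_eq_zero_iff two_ne_zero |>.1 h2) hδ0.ne'
    have e6 : G.lin p (x - p) = 0 := by
      rw [e5, e3] at e1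
      have : G.lin p (x - p) * δ = 0 := by linarith
      rcases mul_eq_zero.1 this with h2 | h2
      · exact h2
      · exact absurd h2 hδ0.ne'
    have hx : x = p + (1 : ℝ) • (x - p) := by rw [one_smul]; abel
    rw [hx, Quad.ev_add_smul, e5, e6, e3]
    ring

/-- two descriptions of the same elliptical section are proportional -/
lemma EllAt.prop {K K1 : Set (E 3)} (b : Body K K1) {u : E 3} (hu : u ≠ 0) {q q' : Quad}
    (h : EllAt K K1 u q) (h' : EllAt K K1 u q') :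
    ∃ r : ℝ, 0 < r ∧ ∀ x, ⟪u, x⟫ = supp K u → q'.ev x = r * q.ev x := by
  obtain ⟨F, hF, hF'⟩ := h.exists_five b hu
  obtain ⟨l, hl⟩ := h.five b hu q' F hF.ge (by
    intro x hx
    obtain ⟨h1, h2⟩ := hF' x hx
    exact ⟨h1, h2, (h'.front_iff b hu h2).1 h1⟩)
  refine ⟨l, ?_, hl⟩
  obtain ⟨z, hzK, hz⟩ := exists_supp b.kK b.neK u
  have h1 := (h.neg_iff b hu hz).1 (b.sub hzK)
  have h2 := (h'.neg_iff b hu hz).1 (b.sub hzK)
  have h3 := hl z hz
  by_contra hneg
  push Not at hneg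
  have : 0 ≤ l * q.ev z := mul_nonneg_of_nonpos_of_nonpos hneg h1.le
  linarith

/-- uniqueness of the quadric -/
lemma unique_quadric {K K1 : Set (E 3)} (b : Body K K1) {V : Set (E 3)} (hV : IsOpen V)
    {v0 : E 3} (hv0 : v0 ∈ V) (h0 : v0 ≠ 0) {G G' : Quad} (hG : ∀ v ∈ V, EllAt K K1 v G)
    (hG' : ∀ v ∈ V, EllAt K K1 v G') : ∃ r : ℝ, 0 < r ∧ ∀ x, G'.ev x = r * G.ev x := by
  obtain ⟨W, hW, hvW, hWV, hW0, hmeet⟩ := exists_meet_nhds b hV hv0 h0
  obtain ⟨r, hr, hrl⟩ := EllAt.prop b h0 (hG v0 hv0) (hG' v0 hv0)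
  refine ⟨r, hr, ?_⟩
  have key : ∀ v ∈ W, ∀ x, ⟪v, x⟫ = supp K v → G'.ev x = r * G.ev x := by
    intro v hv x hx
    obtain ⟨s, hs, hsl⟩ := EllAt.prop b (hW0 v hv) (hG v (hWV hv)) (hG' v (hWV hv))
    obtain ⟨z, hz1, hz2, hz3⟩ := hmeet v0 hvW v hv
    have h1 := ((hG v0 hv0).neg_iff b h0 hz2).1 hz1
    have h2 := hrl z hz2
    have h3 := hsl z hz3
    have h4 : (r - s) * G.ev z = 0 := by rw [sub_mul, ← h2, ← h3, sub_self]
    have h5 : r = s := by
      rcases mul_eq_zero.1 h4 with h5 | h5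
      · linarith
      · exact absurd h5 h1.ne
    rw [h5]
    exact hsl x hx
  obtain ⟨p0, ρ, hρ, hcov⟩ := exists_ball_cover b hW hvW h0
  let D : Quad := Quad.add G' (Quad.smul (-r) G)
  have hD : ∀ x, D.ev x = G'.ev x - r * G.ev x := by
    intro x
    simp only [D, Quad.add_ev, Quad.smul_ev]
    ring
  intro x
  have h1 := D.eq_zero_of_ball p0 hρ (by
    intro p hp
    obtain ⟨v, hv, hvp⟩ := hcov p hp
    rw [hD, key v hv p hvp, sub_self]) x
  rw [hD] at h1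
  linarith

/-- **global quadric lemma** -/
theorem exists_quadric {K K1 : Set (E 3)} (b : Body K K1) {U : Set (E 3)} (hU : IsOpen U)
    (hc : IsPreconnected U) (h0 : (0 : E 3) ∉ U) (hE : ∀ u ∈ U, ∃ q, EllAt K K1 u q) :
    ∃ G : Quad, ∀ u ∈ U, EllAt K K1 u G := by
  rcases U.eq_empty_or_nonempty with rfl | ⟨u0, hu0⟩
  · exact ⟨⟨0, 0, 0⟩, by simp⟩
  have hne : ∀ u ∈ U, u ≠ 0 := by
    rintro u hu rfl
    exact h0 hu
  obtain ⟨V0, hV0, huV0, hVU0, -, G, hG⟩ := local_quadric b hU hE hu0 (hne _ hu0)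
  refine ⟨G, ?_⟩
  let A : Set (E 3) := {u | ∃ W : Set (E 3), IsOpen W ∧ u ∈ W ∧ ∀ w ∈ W, EllAt K K1 w G}
  have hA : IsOpen A := by
    rw [isOpen_iff_forall_mem_open]
    rintro u ⟨W, hW, huW, hWG⟩
    exact ⟨W, fun w hw => ⟨W, hW, hw, hWG⟩, hW, huW⟩
  have hsub : U ⊆ A := by
    apply hc.subset_of_closure_inter_subset hA
    · exact ⟨u0, hu0, V0, hV0, huV0, hG⟩
    · rintro u ⟨hu1, hu2⟩
      obtain ⟨V, hV, huV, hVU, hVn, G', hG'⟩ := local_quadric b hU hE hu2 (hne _ hu2)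
      obtain ⟨a, haV, W, hW, haW, hWG⟩ := mem_closure_iff.1 hu1 V hV huV
      obtain ⟨r, hr, hrl⟩ := unique_quadric b (hV.inter hW) ⟨haV, haW⟩ (hVn a haV)
        (G := G') (G' := G) (fun v hv => hG' v hv.1) (fun v hv => hWG v hv.2)
      exact ⟨V, hV, huV, fun w hw => (hG' w hw).of_eq b hr (fun x _ => hrl x)⟩
  intro u hu
  obtain ⟨W, -, huW, hWG⟩ := hsub hu
  exact hWG u huW

end Pool.Agent.Helper14.BL
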