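import Pool.Agent.Helper14.BL.Quad

/-!
Barker–Larman (MP_70efd9_gt), part E: supporting planes of the inner body (helper14).
-/

open Set Metric Module
open scoped RealInnerProductSpace

namespace Pool.Agent.Helper14.BL

section SuppFun

variable {V : Type} [NormedAddCommGroup V] [InnerProductSpace ℝ V] {K : Set V}

lemma supp_zero (hne : K.Nonempty) : supp K (0 : V) = 0 := by
  unfold supp
  simp [hne.image_const]

lemma supp_add_le (hK : IsCompact K) (hne : K.Nonempty) (u v : V) :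
    supp K (u + v) ≤ supp K u + supp K v := by
  refine supp_le hne _ fun x hx => ?_
  rw [inner_add_left]
  exact add_le_add (le_supp hK u hx) (le_supp hK v hx)

lemma supp_smul (hK : IsCompact K) (hne : K.Nonempty) (u : V) {t : ℝ} (ht : 0 ≤ t) :
    supp K (t • u) = t * supp K u := by
  obtain ⟨x, hx, hxu⟩ := exists_supp hK hne u
  refine supp_eq hK _ (fun y hy => ?_) ⟨x, hx, by rw [real_inner_smul_left, hxu]⟩
  rw [real_inner_smul_left]
  exact mul_le_mul_of_nonneg_left (le_supp hK u hy) ht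

lemma supp_sub_le (hK : IsCompact K) (hne : K.Nonempty) {R : ℝ} (hR : ∀ x ∈ K, ‖x‖ ≤ R)
    (u v : V) : supp K u - supp K v ≤ R * ‖u - v‖ := by
  have h1 : supp K u ≤ supp K v + R * ‖u - v‖ := by
    refine supp_le hne _ fun x hx => ?_
    have h2 := le_supp hK v hx
    have h3 : ⟪u, x⟫ = ⟪v, x⟫ + ⟪u - v, x⟫ := by rw [← inner_add_left]; congr 1; abel
    have h4 := real_inner_le_norm (u - v) x
    have h5 : ‖u - v‖ * ‖x‖ ≤ R * ‖u - v‖ := by
      rw [mul_comm]
      exact mul_le_mul_of_nonneg_right (hR x hx) (norm_nonneg _)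
    linarith
  linarith

omit [InnerProductSpace ℝ V] in
lemma exists_bound (hK : IsCompact K) : ∃ R : ℝ, 0 < R ∧ ∀ x ∈ K, ‖x‖ ≤ R := by
  obtain ⟨R, hR, h⟩ := hK.isBounded.exists_pos_norm_le
  exact ⟨R, hR, h⟩

lemma continuous_supp (hK : IsCompact K) (hne : K.Nonempty) : Continuous (supp K) := by
  obtain ⟨R, hR, h⟩ := exists_bound hK
  have : LipschitzWith (Real.toNNReal R) (supp K) := by
    apply LipschitzWith.of_dist_le_mul
    intro u v
    rw [Real.dist_eq, dist_eq_norm, abs_le, Real.coe_toNNReal R hR.le]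
    have h1 := supp_sub_le hK hne h u v
    have h2 := supp_sub_le hK hne h v u
    rw [norm_sub_rev] at h2
    constructor <;> linarith
  exact this.continuous

end SuppFun

/-- the pair of bodies -/
structure Body (K K1 : Set (E 3)) : Prop where
  cK : Convex ℝ K
  kK : IsCompact K
  neK : K.Nonempty
  cK1 : Convex ℝ K1
  kK1 : IsCompact K1
  sub : K ⊆ interior K1

lemma Hyp.body {K K1 : Set (E 3)} (h : Hyp 3 K K1) : Body K K1 :=
  ⟨h.cK, h.kK, h.iK.mono interior_subset, h.cK1, h.kK1, h.sub⟩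

/-- `q` describes the (elliptical) section of `K1` by the supporting plane of `K` with normal
`u` -/
structure EllAt (K K1 : Set (E 3)) (u : E 3) (q : Quad) : Prop where
  pos : ∀ v, ⟪u, v⟫ = 0 → v ≠ 0 → 0 < q.B v v
  iff : ∀ x, ⟪u, x⟫ = supp K u → (x ∈ K1 ↔ q.ev x ≤ 0)

section

variable {K K1 : Set (E 3)} {u : E 3} {q : Quad}

lemma EllAt.neg_iff (b : Body K K1) (hu : u ≠ 0) (h : EllAt K K1 u q) {x : E 3}
    (hx : ⟪u, x⟫ = supp K u) : x ∈ interior K1 ↔ q.ev x < 0 := by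
  constructor
  · intro hxi
    have h1 : q.ev x ≤ 0 := (h.iff x hx).1 (interior_subset hxi)
    refine lt_of_le_of_ne h1 fun h0 => ?_
    obtain ⟨y, f, hef, hy, hf, -⟩ := exists_perp_basis u hu
    have hy0 : y ≠ 0 := by
      intro h0
      have := ((LinearIndependent.pair_iff.1 hef) 1 0 (by simp [h0])).1
      norm_num at this
    have hα := h.pos y hy hy0
    have hcont : Continuous (fun t : ℝ => x + t • y) := by fun_prop
    have hopen : IsOpen ((fun t : ℝ => x + t • y) ⁻¹' interior K1) :=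
      isOpen_interior.preimage hcont
    have h0mem : (0 : ℝ) ∈ (fun t : ℝ => x + t • y) ⁻¹' interior K1 := by
      simpa using hxi
    obtain ⟨ε, hε, hball⟩ := Metric.isOpen_iff.1 hopen 0 h0mem
    have hp : ∀ t : ℝ, |t| < ε → q.B y y * t ^ 2 + q.lin x y * t ≤ 0 := by
      intro t ht
      have h2 : x + t • y ∈ interior K1 := hball (by simpa [Real.dist_eq] using ht)
      have h3 : ⟪u, x + t • y⟫ = supp K u := by
        rw [inner_add_right, inner_smul_right, hy, mul_zero, add_zero, hx]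
      have h4 := (h.iff _ h3).1 (interior_subset h2)
      rw [Quad.ev_add_smul, h0, add_zero] at h4
      exact h4
    have h5 := hp (ε / 2) (by rw [abs_of_pos (by positivity)]; linarith)
    have h6 := hp (-(ε / 2)) (by rw [abs_neg, abs_of_pos (by positivity)]; linarith)
    have h7 : 0 < q.B y y * (ε / 2) ^ 2 := by positivity
    nlinarith
  · intro hneg
    obtain ⟨z, hzK, hz⟩ := exists_supp b.kK b.neK u
    have hzi := b.sub hzK
    have hcont : Continuous (fun t : ℝ => q.B (x - z) (x - z) * t ^ 2 + q.lin z (x - z) * t + q.ev z) := by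
      fun_prop
    have hopen : IsOpen ((fun t : ℝ => q.B (x - z) (x - z) * t ^ 2 + q.lin z (x - z) * t + q.ev z) ⁻¹' Iio 0) :=
      isOpen_Iio.preimage hcont
    have h1mem : (1 : ℝ) ∈ ((fun t : ℝ => q.B (x - z) (x - z) * t ^ 2 + q.lin z (x - z) * t + q.ev z) ⁻¹' Iio 0) := by
      rw [mem_preimage, mem_Iio, ← Quad.ev_add_smul]
      simpa using hneg
    obtain ⟨ε, hε, hball⟩ := Metric.isOpen_iff.1 hopen 1 h1mem
    set t : ℝ := 1 + ε / 2 with ht
    have h2 : t ∈ ball (1 : ℝ) ε := by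
      rw [mem_ball, Real.dist_eq, ht]
      rw [show (1 + ε / 2 - 1) = ε / 2 by ring, abs_of_pos (by positivity)]
      linarith
    have h3 := hball h2
    rw [mem_preimage, mem_Iio, ← Quad.ev_add_smul] at h3
    have h4 : ⟪u, z + t • (x - z)⟫ = supp K u := by
      rw [inner_add_right, inner_smul_right, inner_sub_right, hz, hx, sub_self, mul_zero, add_zero]
    have h5 : z + t • (x - z) ∈ K1 := (h.iff _ h4).2 h3.le
    have ht0 : 0 < t := by positivity
    have h6 : x = (1 - 1 / t) • z + (1 / t) • (z + t • (x - z)) := by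
      rw [smul_add, smul_smul, one_div, inv_mul_cancel₀ ht0.ne']
      module
    rw [h6]
    apply b.cK1.combo_interior_self_mem_interior hzi h5
    · rw [sub_pos, div_lt_one ht0]
      linarith
    · positivity
    · ring

lemma EllAt.front_iff (b : Body K K1) (hu : u ≠ 0) (h : EllAt K K1 u q) {x : E 3}
    (hx : ⟪u, x⟫ = supp K u) : x ∈ frontier K1 ↔ q.ev x = 0 := by
  rw [b.kK1.isClosed.frontier_eq, mem_sdiff, h.neg_iff b hu hx, h.iff x hx]
  constructor
  · rintro ⟨h1, h2⟩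
    exact le_antisymm h1 (not_lt.1 h2)
  · intro h1
    rw [h1]
    exact ⟨le_rfl, lt_irrefl _⟩

end

/-- the line orthogonal to two vectors -/
lemma exists_perp_line {u v : E 3} (h : LinearIndependent ℝ ![u, v]) :
    ∃ y : E 3, y ≠ 0 ∧ ⟪u, y⟫ = 0 ∧ ⟪v, y⟫ = 0 ∧
      ∀ x, ⟪u, x⟫ = 0 → ⟪v, x⟫ = 0 → ∃ t : ℝ, x = t • y := by
  have h1 : finrank ℝ (Submodule.span ℝ (Set.range ![u, v])) = 2 := by
    rw [finrank_span_eq_card h]
    rfl
  have h2 := Submodule.finrank_add_finrank_orthogonal (Submodule.span ℝ (Set.range ![u, v]))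
  rw [h1, finrank_euclideanSpace_fin] at h2
  have h3 : finrank ℝ (Submodule.span ℝ (Set.range ![u, v]))ᗮ = 1 := by omega
  obtain ⟨y, hy0, hy⟩ := finrank_eq_one_iff'.1 h3
  have hmem : ∀ x : E 3, x ∈ (Submodule.span ℝ (Set.range ![u, v]))ᗮ ↔
      (⟪u, x⟫ = 0 ∧ ⟪v, x⟫ = 0) := by
    intro x
    rw [Submodule.mem_orthogonal]
    constructor
    · intro hx
      exact ⟨hx u (Submodule.subset_span ⟨0, rfl⟩), hx v (Submodule.subset_span ⟨1, rfl⟩)⟩
    · rintro ⟨hx1, hx2⟩ w hw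
      induction hw using Submodule.span_induction with
      | mem w hw =>
        obtain ⟨i, rfl⟩ := hw
        fin_cases i
        · exact hx1
        · exact hx2
      | zero => exact inner_zero_left _
      | add a b _ _ ha hb => rw [inner_add_left, ha, hb, add_zero]
      | smul t a _ ha => rw [real_inner_smul_left, ha, mul_zero]
  refine ⟨y, ?_, ((hmem _).1 y.2).1, ((hmem _).1 y.2).2, ?_⟩
  · simpa using hy0
  · intro x hx1 hx2
    obtain ⟨t, ht⟩ := hy ⟨x, (hmem x).2 ⟨hx1, hx2⟩⟩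
    refine ⟨t, ?_⟩
    exact (congrArg Subtype.val ht).symm

lemma quad_roots {α β γ : ℝ} (hα : 0 < α) (hγ : γ < 0) : ∃ t1 t2 : ℝ, t1 < 0 ∧ 0 < t2 ∧
    ∀ t, α * t ^ 2 + β * t + γ = α * ((t - t1) * (t - t2)) := by
  set D := β ^ 2 - 4 * α * γ with hD
  have hD0 : β ^ 2 < D := by rw [hD]; nlinarith
  have hD1 : 0 < D := lt_of_le_of_lt (sq_nonneg β) hD0
  set r := Real.sqrt D with hr
  have hr0 : 0 < r := Real.sqrt_pos.2 hD1
  have hr2 : r * r = D := Real.mul_self_sqrt hD1.le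
  have hrβ : |β| < r := by
    rw [hr]
    exact Real.lt_sqrt_of_sq_lt (by rwa [sq_abs])
  rw [abs_lt] at hrβ
  refine ⟨(-β - r) / (2 * α), (-β + r) / (2 * α), ?_, ?_, ?_⟩
  · apply div_neg_of_neg_of_pos <;> linarith
  · apply div_pos <;> linarith
  · intro t
    have h1 : r ^ 2 = β ^ 2 - 4 * α * γ := by rw [← hD, ← hr2]; ring
    field_simp
    linear_combination h1

/-- two supporting planes which meet inside `K1` -/
def Meet (K K1 : Set (E 3)) (u v : E 3) : Prop :=
  ∃ z ∈ interior K1, ⟪u, z⟫ = supp K u ∧ ⟪v, z⟫ = supp K v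

lemma Meet.symm {K K1 : Set (E 3)} {u v : E 3} (h : Meet K K1 u v) : Meet K K1 v u := by
  obtain ⟨z, h1, h2, h3⟩ := h
  exact ⟨z, h1, h3, h2⟩

lemma two_points {K K1 : Set (E 3)} (b : Body K K1) {u v : E 3}
    (hli : LinearIndependent ℝ ![u, v]) (hm : Meet K K1 u v) {q : Quad} (h : EllAt K K1 u q) :
    ∃ p p' : E 3, p ≠ p' ∧ ∀ x, (x ∈ frontier K1 ∧ ⟪u, x⟫ = supp K u ∧ ⟪v, x⟫ = supp K v) ↔
      (x = p ∨ x = p') := by
  have hu : u ≠ 0 := by
    have := hli.ne_zero 0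
    simpa using this
  obtain ⟨z, hz1, hz2, hz3⟩ := hm
  obtain ⟨y, hy0, hy1, hy2, hy3⟩ := exists_perp_line hli
  have hα := h.pos y hy1 hy0
  have hγ := (h.neg_iff b hu hz2).1 hz1
  obtain ⟨t1, t2, ht1, ht2, ht⟩ := quad_roots (β := q.lin z y) hα hγ
  refine ⟨z + t1 • y, z + t2 • y, ?_, ?_⟩
  · intro h0
    have h1 : t1 • y = t2 • y := add_left_cancel h0
    have h2 : t1 = t2 := smul_left_injective ℝ hy0 h1
    linarith
  · intro x
    have key : ∀ t : ℝ, z + t • y ∈ frontier K1 ↔ t = t1 ∨ t = t2 := by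
      intro t
      have hx : ⟪u, z + t • y⟫ = supp K u := by
        rw [inner_add_right, inner_smul_right, hy1, mul_zero, add_zero, hz2]
      rw [h.front_iff b hu hx, Quad.ev_add_smul, ht]
      constructor
      · intro h1
        rcases mul_eq_zero.1 h1 with h2 | h2
        · exact absurd h2 hα.ne'
        · rcases mul_eq_zero.1 h2 with h3 | h3
          · left; linarith
          · right; linarith
      · rintro (rfl | rfl) <;> ring
    constructor
    · rintro ⟨h1, h2, h3⟩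
      obtain ⟨t, ht'⟩ := hy3 (x - z) (by rw [inner_sub_right, h2, hz2, sub_self])
        (by rw [inner_sub_right, h3, hz3, sub_self])
      have hx : x = z + t • y := by rw [← ht']; abel
      rw [hx] at h1
      rw [hx]
      rcases (key t).1 h1 with rfl | rfl
      · exact Or.inl rfl
      · exact Or.inr rfl
    · intro h1
      have h2 : ∃ t : ℝ, (t = t1 ∨ t = t2) ∧ x = z + t • y := by
        rcases h1 with rfl | rfl
        · exact ⟨t1, Or.inl rfl, rfl⟩
        · exact ⟨t2, Or.inr rfl, rfl⟩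
      obtain ⟨t, ht', rfl⟩ := h2
      refine ⟨(key t).2 ht', ?_, ?_⟩
      · rw [inner_add_right, inner_smul_right, hy1, mul_zero, add_zero, hz2]
      · rw [inner_add_right, inner_smul_right, hy2, mul_zero, add_zero, hz3]

/-- nearby supporting planes meet inside `K1` -/
lemma exists_meet {K K1 : Set (E 3)} (b : Body K K1) : ∃ ε : ℝ, 0 < ε ∧
    ∀ u v : E 3, ‖u‖ = 1 → ‖v‖ = 1 → ‖u - v‖ < ε → Meet K K1 u v := by
  obtain ⟨R, hR, hRK⟩ := exists_bound b.kK
  obtain ⟨ρ, hρ, hthick⟩ := b.kK.exists_thickening_subset_open isOpen_interior b.sub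
  refine ⟨min 1 (ρ / (4 * R)), lt_min one_pos (by positivity), ?_⟩
  intro u v hu hv huv
  have h1 : ‖u - v‖ < 1 := huv.trans_le (min_le_left _ _)
  have h2 : ‖u - v‖ < ρ / (4 * R) := huv.trans_le (min_le_right _ _)
  rw [lt_div_iff₀ (by positivity)] at h2
  obtain ⟨k, hk, hku⟩ := exists_supp b.kK b.neK u
  obtain ⟨k', hk', hkv⟩ := exists_supp b.kK b.neK v
  set α := supp K v - ⟪v, k⟫ with hα
  set β := supp K u - ⟪u, k'⟫ with hβ
  have hα0 : 0 ≤ α := sub_nonneg.2 (le_supp b.kK v hk)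
  have hβ0 : 0 ≤ β := sub_nonneg.2 (le_supp b.kK u hk')
  have hβ1 : β ≤ 2 * R * ‖u - v‖ := by
    have e1 := supp_sub_le b.kK b.neK hRK u v
    have e2 : ⟪u, k'⟫ = ⟪v, k'⟫ + ⟪u - v, k'⟫ := by rw [← inner_add_left]; congr 1; abel
    have e3 := (abs_le.1 (abs_real_inner_le_norm (u - v) k')).1
    have e4 : ‖u - v‖ * ‖k'‖ ≤ R * ‖u - v‖ := by
      rw [mul_comm]
      exact mul_le_mul_of_nonneg_right (hRK k' hk') (norm_nonneg _)
    rw [hβ, e2, hkv]
    linarith
  obtain ⟨s, hs0, hs1, hs⟩ : ∃ s : ℝ, 0 ≤ s ∧ s ≤ 1 ∧ (1 - s) * α = s * β := by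
    rcases eq_or_lt_of_le (add_nonneg hα0 hβ0) with h0 | h0
    · refine ⟨0, le_rfl, zero_le_one, ?_⟩
      have : α = 0 := by linarith
      rw [this]; ring
    · refine ⟨α / (α + β), by positivity, ?_, ?_⟩
      · rw [div_le_one h0]; linarith
      · field_simp
        ring
  set m := (1 - s) • k + s • k' with hm
  have hmK : m ∈ K := b.cK hk hk' (by linarith) hs0 (by ring)
  have hmu : ⟪u, m⟫ = supp K u - s * β := by
    rw [hm, inner_add_right, inner_smul_right, inner_smul_right, hku, hβ]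
    ring
  have hmv : ⟪v, m⟫ = supp K v - s * β := by
    rw [hm, inner_add_right, inner_smul_right, inner_smul_right, hkv, ← hs, hα]
    ring
  have huu : ⟪u, u⟫ = 1 := by rw [real_inner_self_eq_norm_sq, hu]; norm_num
  have hvv : ⟪v, v⟫ = 1 := by rw [real_inner_self_eq_norm_sq, hv]; norm_num
  have huv' : (1 : ℝ) / 2 ≤ ⟪u, v⟫ := by
    have e1 : ‖u - v‖ ^ 2 = 2 - 2 * ⟪u, v⟫ := by
      rw [norm_sub_sq_real, hu, hv]; ring
    have e2 : ‖u - v‖ ^ 2 ≤ 1 := by
      have := norm_nonneg (u - v)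
      nlinarith
    linarith
  set τ := s * β / (1 + ⟪u, v⟫) with hτ
  have hden : 0 < 1 + ⟪u, v⟫ := by linarith
  have hτ1 : τ * (1 + ⟪u, v⟫) = s * β := div_mul_cancel₀ _ hden.ne'
  have hτ0 : 0 ≤ τ := by positivity
  have hτ2 : τ ≤ β := by
    have e1 : s * β ≤ β := by nlinarith
    have e2 : τ ≤ τ * (1 + ⟪u, v⟫) := by nlinarith
    linarith
  refine ⟨m + τ • (u + v), hthick ?_, ?_, ?_⟩
  · rw [mem_thickening_iff]
    refine ⟨m, hmK, ?_⟩
    rw [dist_eq_norm, add_sub_cancel_left, norm_smul, Real.norm_eq_abs, abs_of_nonneg hτ0]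
    have e1 : ‖u + v‖ ≤ 2 := (norm_add_le _ _).trans (by rw [hu, hv]; norm_num)
    have e2 : τ * ‖u + v‖ ≤ τ * 2 := mul_le_mul_of_nonneg_left e1 hτ0
    nlinarith
  · have e1 : ⟪u, u + v⟫ = 1 + ⟪u, v⟫ := by rw [inner_add_right, huu]
    rw [inner_add_right, inner_smul_right u (u + v), e1, hτ1, hmu]
    ring
  · have e1 : ⟪v, u + v⟫ = 1 + ⟪u, v⟫ := by rw [inner_add_right, hvv, real_inner_comm, add_comm]
    rw [inner_add_right, inner_smul_right v (u + v), e1, hτ1, hmv]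
    ring

/-- a point outside `K` avoids most supporting planes -/
lemma exists_avoid_point {K K1 : Set (E 3)} (b : Body K K1) {V : Set (E 3)} (hV : IsOpen V)
    (hne : V.Nonempty) {p : E 3} (hp : p ∉ K) : ∃ u ∈ V, ⟪u, p⟫ ≠ supp K u := by
  by_contra hcon
  push Not at hcon
  obtain ⟨u, hu⟩ := hne
  obtain ⟨w, hw⟩ : ∃ w : E 3, supp K w < ⟪w, p⟫ := by
    by_contra h
    push Not at h
    exact hp ((mem_iff_supp b.kK b.cK b.neK p).2 h)
  have hcont : Continuous (fun t : ℝ => u + t • w) := by fun_prop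
  have hopen : IsOpen ((fun t : ℝ => u + t • w) ⁻¹' V) := hV.preimage hcont
  have h0mem : (0 : ℝ) ∈ (fun t : ℝ => u + t • w) ⁻¹' V := by simpa using hu
  obtain ⟨ε, hε, hball⟩ := Metric.isOpen_iff.1 hopen 0 h0mem
  have h1 : u + (ε / 2) • w ∈ V := hball (by
    rw [mem_ball, Real.dist_eq, sub_zero, abs_of_pos (by positivity)]; linarith)
  have h2 := hcon _ h1
  have h3 := hcon _ hu
  have h4 := supp_add_le b.kK b.neK u ((ε / 2) • w)
  rw [supp_smul b.kK b.neK w (by positivity : (0 : ℝ) ≤ ε / 2)] at h4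
  rw [inner_add_left, real_inner_smul_left] at h2
  have h5 : ε / 2 * supp K w < ε / 2 * ⟪w, p⟫ := mul_lt_mul_of_pos_left hw (by positivity)
  linarith

/-- avoiding finitely many points and finitely many directions -/
lemma exists_avoid {K K1 : Set (E 3)} (b : Body K K1) {V : Set (E 3)} (hV : IsOpen V)
    (hne : V.Nonempty) (F W : Finset (E 3)) (hF : ∀ p ∈ F, p ∉ K) (hW : ∀ w ∈ W, w ≠ 0) :
    ∃ u ∈ V, (∀ p ∈ F, ⟪u, p⟫ ≠ supp K u) ∧ ∀ w ∈ W, LinearIndependent ℝ ![w, u] := by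
  classical
  have hcs := continuous_supp b.kK b.neK
  have h1 : ∀ F : Finset (E 3), (∀ p ∈ F, p ∉ K) →
      ∃ V' ⊆ V, IsOpen V' ∧ V'.Nonempty ∧ ∀ u ∈ V', ∀ p ∈ F, ⟪u, p⟫ ≠ supp K u := by
    intro F
    induction F using Finset.induction_on with
    | empty => intro _; exact ⟨V, Subset.rfl, hV, hne, by simp⟩
    | insert a F _ ih =>
      intro hF
      obtain ⟨V', hV', ho, hn, hp⟩ := ih (fun p hp => hF p (Finset.mem_insert_of_mem hp))
      obtain ⟨u, hu, hua⟩ := exists_avoid_point b ho hn (hF a (Finset.mem_insert_self _ _))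
      refine ⟨V' ∩ {u | ⟪u, a⟫ ≠ supp K u}, inter_subset_left.trans hV', ?_, ⟨u, hu, hua⟩, ?_⟩
      · apply ho.inter
        exact isOpen_ne_fun (by fun_prop) hcs
      · rintro v ⟨hv1, hv2⟩ p hp'
        rcases Finset.mem_insert.1 hp' with rfl | hp'
        · exact hv2
        · exact hp v hv1 p hp'
  obtain ⟨V1, hV1, ho1, hn1, hp1⟩ := h1 F hF
  have h2 : ∀ W : Finset (E 3), (∀ w ∈ W, w ≠ 0) →
      ∃ V' ⊆ V1, IsOpen V' ∧ V'.Nonempty ∧ ∀ u ∈ V', ∀ w ∈ W, LinearIndependent ℝ ![w, u] := by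
    intro W
    induction W using Finset.induction_on with
    | empty => intro _; exact ⟨V1, Subset.rfl, ho1, hn1, by simp⟩
    | insert a W _ ih =>
      intro hW
      obtain ⟨V', hV', ho, hn, hp⟩ := ih (fun p hp => hW p (Finset.mem_insert_of_mem hp))
      have ha0 : a ≠ 0 := hW a (Finset.mem_insert_self _ _)
      have hcl : IsClosed ((Submodule.span ℝ {a} : Submodule ℝ (E 3)) : Set (E 3)) :=
        Submodule.closed_of_finiteDimensional _
      refine ⟨V' \ ((Submodule.span ℝ {a} : Submodule ℝ (E 3)) : Set (E 3)),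
        sdiff_subset.trans hV', ho.sdiff hcl, ?_, ?_⟩
      · by_contra hemp
        rw [not_nonempty_iff_eq_empty, sdiff_eq_empty] at hemp
        have h3 : (interior ((Submodule.span ℝ {a} : Submodule ℝ (E 3)) : Set (E 3))).Nonempty :=
          hn.mono (interior_maximal hemp ho)
        have h4 := Submodule.eq_top_of_nonempty_interior' _ h3
        have h5 := finrank_span_singleton (K := ℝ) ha0
        rw [h4, finrank_top, finrank_euclideanSpace_fin] at h5
        omega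
      · rintro v ⟨hv1, hv2⟩ w hw
        rcases Finset.mem_insert.1 hw with rfl | hw
        · rw [LinearIndependent.pair_iff' ha0]
          intro c hc
          exact hv2 (Submodule.mem_span_singleton.2 ⟨c, hc⟩)
        · exact hp v hv1 w hw
  obtain ⟨V2, hV2, ho2, ⟨u, hu⟩, hp2⟩ := h2 W hW
  exact ⟨u, hV1 (hV2 hu), hp1 u (hV2 hu), hp2 u hu⟩

/-- the supporting planes with normal in an open set cover an open set -/
lemma exists_ball_cover {K K1 : Set (E 3)} (b : Body K K1) {V : Set (E 3)} (hV : IsOpen V)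
    {v0 : E 3} (hv0 : v0 ∈ V) (h0 : v0 ≠ 0) :
    ∃ (p0 : E 3) (r : ℝ), 0 < r ∧ ∀ p ∈ ball p0 r, ∃ v ∈ V, ⟪v, p⟫ = supp K v := by
  obtain ⟨k, hk, hkv⟩ := exists_supp b.kK b.neK v0
  obtain ⟨d, f, hdf, hd, hf, -⟩ := exists_perp_basis v0 h0
  have hd0 : d ≠ 0 := by
    intro h0
    have := ((LinearIndependent.pair_iff.1 hdf) 1 0 (by simp [h0])).1
    norm_num at this
  have hdd : 0 < ‖d‖ ^ 2 := by positivity
  obtain ⟨s, hs⟩ : ∃ s : ℝ, supp K d < ⟪d, k⟫ + s * ‖d‖ ^ 2 := by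
    refine ⟨(supp K d - ⟪d, k⟫ + 1) / ‖d‖ ^ 2, ?_⟩
    rw [div_mul_cancel₀ _ hdd.ne']
    linarith
  set p0 := k + s • d with hp0
  have hp0v : ⟪v0, p0⟫ = supp K v0 := by
    rw [hp0, inner_add_right, inner_smul_right, hd, mul_zero, add_zero, hkv]
  have hp0d : supp K d < ⟪d, p0⟫ := by
    rw [hp0, inner_add_right, inner_smul_right, real_inner_self_eq_norm_sq]
    exact hs
  set η := ⟪d, p0⟫ - supp K d with hη
  have hη0 : 0 < η := sub_pos.2 hp0d
  obtain ⟨δ, hδ, hball⟩ := Metric.isOpen_iff.1 hV v0 hv0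
  have hdn : 0 < ‖d‖ := norm_pos_iff.2 hd0
  set ε := δ / (2 * ‖d‖) with hε
  have hε0 : 0 < ε := by positivity
  have hseg : ∀ t : ℝ, |t| ≤ 1 → v0 + (t * ε) • d ∈ V := by
    intro t ht
    apply hball
    rw [mem_ball, dist_eq_norm, add_sub_cancel_left, norm_smul, Real.norm_eq_abs, abs_mul,
      abs_of_pos hε0]
    have e1 : ε * ‖d‖ = δ / 2 := by rw [hε]; field_simp
    calc |t| * ε * ‖d‖ = |t| * (δ / 2) := by rw [mul_assoc, e1]
      _ ≤ 1 * (δ / 2) := mul_le_mul_of_nonneg_right ht (by positivity)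
      _ < δ := by linarith
  set M := ‖v0‖ + ε * ‖d‖ + 1 with hM
  have hM0 : 0 < M := by positivity
  refine ⟨p0, ε * η / M, by positivity, ?_⟩
  intro p hp
  rw [mem_ball, dist_eq_norm, lt_div_iff₀ hM0] at hp
  let g : ℝ → ℝ := fun t => ⟪v0 + (t * ε) • d, p⟫ - supp K (v0 + (t * ε) • d)
  have hg : Continuous g := by
    have := continuous_supp b.kK b.neK
    have h1 : Continuous (fun t : ℝ => v0 + (t * ε) • d) := by fun_prop
    exact (h1.inner continuous_const).sub (this.comp h1)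
  have hdiff : ∀ v : E 3, ‖v‖ ≤ ‖v0‖ + ε * ‖d‖ → |⟪v, p⟫ - ⟪v, p0⟫| < ε * η := by
    intro v hv
    rw [← inner_sub_right]
    have h2 := abs_real_inner_le_norm v (p - p0)
    have h3 : ‖v‖ * ‖p - p0‖ ≤ M * ‖p - p0‖ := by
      apply mul_le_mul_of_nonneg_right _ (norm_nonneg _)
      rw [hM]; linarith
    rw [mul_comm] at hp
    linarith
  have hn1 : ‖v0 + ((1 : ℝ) * ε) • d‖ ≤ ‖v0‖ + ε * ‖d‖ := by
    refine (norm_add_le _ _).trans ?_
    rw [norm_smul, Real.norm_eq_abs, one_mul, abs_of_pos hε0]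
  have hn2 : ‖v0 + ((-1 : ℝ) * ε) • d‖ ≤ ‖v0‖ + ε * ‖d‖ := by
    refine (norm_add_le _ _).trans ?_
    rw [norm_smul, Real.norm_eq_abs, abs_mul, abs_neg, abs_one, one_mul, abs_of_pos hε0]
  have hg1 : 0 < g 1 := by
    have h2 := (abs_lt.1 (hdiff _ hn1)).1
    have h3 : supp K (v0 + ((1 : ℝ) * ε) • d) ≤ supp K v0 + ε * supp K d := by
      have := supp_add_le b.kK b.neK v0 (((1 : ℝ) * ε) • d)
      rw [supp_smul b.kK b.neK d (by positivity : (0 : ℝ) ≤ 1 * ε)] at this
      linarith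
    have h4 : ⟪v0 + ((1 : ℝ) * ε) • d, p0⟫ = supp K v0 + ε * ⟪d, p0⟫ := by
      rw [inner_add_left, real_inner_smul_left, hp0v]; ring
    have h5 : g 1 = ⟪v0 + ((1 : ℝ) * ε) • d, p⟫ - supp K (v0 + ((1 : ℝ) * ε) • d) := rfl
    rw [h5]
    rw [hη] at h2
    nlinarith
  have hg2 : g (-1) < 0 := by
    have h2 := (abs_lt.1 (hdiff _ hn2)).2
    have h3 := le_supp b.kK (v0 + ((-1 : ℝ) * ε) • d) hk
    have h4 : ⟪v0 + ((-1 : ℝ) * ε) • d, p0⟫ = supp K v0 - ε * ⟪d, p0⟫ := by
      rw [inner_add_left, real_inner_smul_left, hp0v]; ring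
    have h6 : ⟪v0 + ((-1 : ℝ) * ε) • d, k⟫ = supp K v0 - ε * ⟪d, k⟫ := by
      rw [inner_add_left, real_inner_smul_left, hkv]; ring
    have h7 := le_supp b.kK d hk
    have h5 : g (-1) = ⟪v0 + ((-1 : ℝ) * ε) • d, p⟫ - supp K (v0 + ((-1 : ℝ) * ε) • d) := rfl
    rw [h5]
    rw [h4, hη] at h2
    rw [h6] at h3
    nlinarith [mul_le_mul_of_nonneg_left h7 hε0.le]
  obtain ⟨t, ht, htg⟩ := intermediate_value_Icc (by norm_num : (-1 : ℝ) ≤ 1) hg.continuousOn
    (show (0 : ℝ) ∈ Icc (g (-1)) (g 1) from ⟨hg2.le, hg1.le⟩)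
  refine ⟨v0 + (t * ε) • d, hseg t (abs_le.2 ht), ?_⟩
  have : ⟪v0 + (t * ε) • d, p⟫ - supp K (v0 + (t * ε) • d) = 0 := htg
  linarith

/-- through every outer point there is a supporting plane -/
lemma exists_through {K K1 : Set (E 3)} (b : Body K K1) {x : E 3} (hx : x ∉ K) :
    ∃ u : E 3, u ≠ 0 ∧ ⟪u, x⟫ = supp K u := by
  obtain ⟨w, hw⟩ : ∃ w : E 3, supp K w < ⟪w, x⟫ := by
    by_contra h
    push Not at h
    exact hx ((mem_iff_supp b.kK b.cK b.neK x).2 h)
  have hw0 : w ≠ 0 := by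
    rintro rfl
    rw [supp_zero b.neK, inner_zero_left] at hw
    exact lt_irrefl _ hw
  have hw1 : ⟪-w, x⟫ < supp K (-w) := by
    have h1 := supp_add_le b.kK b.neK w (-w)
    rw [add_neg_cancel, supp_zero b.neK] at h1
    rw [inner_neg_left]
    linarith
  have hpre : IsPreconnected ({(0 : E 3)}ᶜ) := by
    refine (isConnected_compl_singleton_of_one_lt_rank ?_ 0).isPreconnected
    rw [← Module.finrank_eq_rank, finrank_euclideanSpace_fin]
    norm_num
  have hcont : Continuous (fun v : E 3 => ⟪v, x⟫ - supp K v) := by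
    have := continuous_supp b.kK b.neK
    fun_prop
  obtain ⟨u, hu, hu0⟩ := hpre.intermediate_value (f := fun v : E 3 => ⟪v, x⟫ - supp K v)
    (a := -w) (b := w) (by simpa using hw0) (by simpa using hw0) hcont.continuousOn
    (show (0 : ℝ) ∈ Icc _ _ from ⟨by linarith, by linarith⟩)
  refine ⟨u, by simpa using hu, ?_⟩
  simp only at hu0
  linarith

end Pool.Agent.Helper14.BL
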