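import Pool.Agent.Helper14.BL.Dim

/-!
Barker–Larman (MP_70efd9_gt), part E: quadratic functions on three-space (helper14).
-/

open Set Metric Module
open scoped RealInnerProductSpace

namespace Pool.Agent.Helper14.BL

/-- quadratic functions -/
structure Quad where
  /-- quadratic part -/
  B : E 3 →ₗ[ℝ] E 3 →ₗ[ℝ] ℝ
  /-- linear part -/
  l : E 3 →ₗ[ℝ] ℝ
  /-- constant part -/
  c : ℝ

namespace Quad

/-- evaluation -/
def ev (q : Quad) (x : E 3) : ℝ := q.B x x + q.l x + q.c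

lemma ev_def (q : Quad) (x : E 3) : q.ev x = q.B x x + q.l x + q.c := rfl

/-- first-order coefficient along `v` at `p` -/
def lin (q : Quad) (p v : E 3) : ℝ := q.B p v + q.B v p + q.l v

lemma ev_add_smul (q : Quad) (p v : E 3) (t : ℝ) :
    q.ev (p + t • v) = q.B v v * t ^ 2 + q.lin p v * t + q.ev p := by
  simp only [ev, lin, map_add, map_smul, LinearMap.add_apply, LinearMap.smul_apply, smul_eq_mul]
  ring

lemma ev_add_smul_smul (q : Quad) (p v w : E 3) (s t : ℝ) :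
    q.ev (p + s • v + t • w) = q.B v v * s ^ 2 + (q.B v w + q.B w v) * s * t + q.B w w * t ^ 2 +
      q.lin p v * s + q.lin p w * t + q.ev p := by
  simp only [ev, lin, map_add, map_smul, LinearMap.add_apply, LinearMap.smul_apply, smul_eq_mul]
  ring

/-- scaling -/
def smul (r : ℝ) (q : Quad) : Quad := ⟨r • q.B, r • q.l, r * q.c⟩

lemma smul_ev (r : ℝ) (q : Quad) (x : E 3) : (smul r q).ev x = r * q.ev x := by
  simp only [ev, smul, LinearMap.smul_apply, smul_eq_mul]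
  ring

/-- addition -/
def add (q q' : Quad) : Quad := ⟨q.B + q'.B, q.l + q'.l, q.c + q'.c⟩

lemma add_ev (q q' : Quad) (x : E 3) : (add q q').ev x = q.ev x + q'.ev x := by
  simp only [ev, add, LinearMap.add_apply]
  ring

/-- composition with `x ↦ L x + a` -/
def comp (q : Quad) (L : E 3 →ₗ[ℝ] E 3) (a : E 3) : Quad :=
  ⟨(q.B.comp L).compl₂ L, (q.B.flip a).comp L + (q.B a).comp L + q.l.comp L, q.ev a⟩

lemma comp_ev (q : Quad) (L : E 3 →ₗ[ℝ] E 3) (a x : E 3) :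
    (q.comp L a).ev x = q.ev (L x + a) := by
  simp only [ev, comp, LinearMap.compl₂_apply, LinearMap.comp_apply, LinearMap.add_apply,
    LinearMap.flip_apply, map_add]
  ring

/-- products of two affine functions -/
noncomputable def prod (u v : E 3) (h k : ℝ) : Quad :=
  ⟨((innerₗ (E 3)) u).smulRight ((innerₗ (E 3)) v),
    -(k • (innerₗ (E 3)) u) - h • (innerₗ (E 3)) v, h * k⟩

lemma prod_ev (u v : E 3) (h k : ℝ) (x : E 3) :
    (prod u v h k).ev x = (⟪u, x⟫ - h) * (⟪v, x⟫ - k) := by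
  simp only [ev, prod, LinearMap.smulRight_apply, LinearMap.smul_apply, LinearMap.sub_apply,
    LinearMap.neg_apply, innerₗ_apply_apply, smul_eq_mul]
  ring

end Quad

/-- a quadratic function vanishing at five points of the unit circle -/
lemma circle5 (a b c d e f : ℝ) (s : Finset (ℝ × ℝ)) (hs : 5 ≤ s.card)
    (h1 : ∀ p ∈ s, p.1 ^ 2 + p.2 ^ 2 = 1)
    (h2 : ∀ p ∈ s, a * p.1 ^ 2 + b * p.1 * p.2 + c * p.2 ^ 2 + d * p.1 + e * p.2 + f = 0) :
    a = c ∧ b = 0 ∧ d = 0 ∧ e = 0 ∧ f = -a := by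
  classical
  let α4 : ℂ := ((a - c) / 4 : ℝ) - ((b / 4 : ℝ) : ℂ) * Complex.I
  let α3 : ℂ := ((d / 2 : ℝ) : ℂ) - ((e / 2 : ℝ) : ℂ) * Complex.I
  let α2 : ℂ := (((a + c) / 2 + f : ℝ) : ℂ)
  let α1 : ℂ := ((d / 2 : ℝ) : ℂ) + ((e / 2 : ℝ) : ℂ) * Complex.I
  let α0 : ℂ := ((a - c) / 4 : ℝ) + ((b / 4 : ℝ) : ℂ) * Complex.I
  let P : Polynomial ℂ := Polynomial.C α4 * Polynomial.X ^ 4 + Polynomial.C α3 * Polynomial.X ^ 3 +
    Polynomial.C α2 * Polynomial.X ^ 2 + Polynomial.C α1 * Polynomial.X + Polynomial.C α0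
  have hdeg : P.natDegree ≤ 4 := by
    simp only [P]
    compute_degree
  let φ : ℝ × ℝ → ℂ := fun p => ⟨p.1, p.2⟩
  have hφ : Function.Injective φ := by
    intro p p' h
    have h3 := congrArg Complex.re h
    have h4 := congrArg Complex.im h
    exact Prod.ext h3 h4
  have hcard : (s.image φ).card = s.card := Finset.card_image_of_injective s hφ
  have heval : ∀ z ∈ s.image φ, P.eval z = 0 := by
    intro z hz
    obtain ⟨p, hp, rfl⟩ := Finset.mem_image.1 hz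
    have e1 := h1 p hp
    have e2 := h2 p hp
    simp only [P, Polynomial.eval_add, Polynomial.eval_mul, Polynomial.eval_C,
      Polynomial.eval_pow, Polynomial.eval_X]
    have e3 : φ p = (p.1 : ℂ) + p.2 * Complex.I := by
      apply Complex.ext <;> simp [φ]
    have e4 : ((p.1 : ℂ)) ^ 2 + (p.2 : ℂ) ^ 2 = 1 := by exact_mod_cast e1
    have e5 : (a : ℂ) * p.1 ^ 2 + b * p.1 * p.2 + c * p.2 ^ 2 + d * p.1 + e * p.2 + f = 0 := by
      exact_mod_cast e2
    rw [e3]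
    simp only [α4, α3, α2, α1, α0]
    push_cast
    have hI : Complex.I ^ 2 = -1 := Complex.I_sq
    generalize (p.1 : ℂ) = x at *
    generalize (p.2 : ℂ) = y at *
    generalize Complex.I = I at *
    have hxz : x * (x + y * I) = ((x + y * I) ^ 2 + 1) / 2 := by
      linear_combination (-1 / 2 : ℂ) * y ^ 2 * hI + (1 / 2 : ℂ) * e4
    have hyz : y * (x + y * I) = -I * ((x + y * I) ^ 2 - 1) / 2 := by
      linear_combination (I * y ^ 2 / 2 + x * y) * hI + (I / 2) * e4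
    have e6 : (a : ℂ) * (x * (x + y * I)) ^ 2 + b * (x * (x + y * I)) * (y * (x + y * I)) +
        c * (y * (x + y * I)) ^ 2 + d * (x + y * I) * (x * (x + y * I)) +
        e * (x + y * I) * (y * (x + y * I)) + f * (x + y * I) ^ 2 = 0 := by
      linear_combination (x + y * I) ^ 2 * e5
    rw [hxz, hyz] at e6
    linear_combination e6 - c * ((x + y * I) ^ 2 - 1) ^ 2 / 4 * hI
  have hP : P = 0 := by
    apply Polynomial.eq_zero_of_natDegree_lt_card_of_eval_eq_zero' P (s.image φ) heval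
    omega
  have c4 : α4 = 0 := by
    have := congrArg (fun Q => Polynomial.coeff Q 4) hP
    simpa [P, Polynomial.coeff_X, Polynomial.coeff_C] using this
  have c3 : α3 = 0 := by
    have := congrArg (fun Q => Polynomial.coeff Q 3) hP
    simpa [P, Polynomial.coeff_X, Polynomial.coeff_C] using this
  have c2 : α2 = 0 := by
    have := congrArg (fun Q => Polynomial.coeff Q 2) hP
    simpa [P, Polynomial.coeff_X, Polynomial.coeff_C] using this
  have r4 := congrArg Complex.re c4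
  have i4 := congrArg Complex.im c4
  have r3 := congrArg Complex.re c3
  have i3 := congrArg Complex.im c3
  have r2 := congrArg Complex.re c2
  simp [α4, α3, α2] at r4 i4 r3 i3 r2
  refine ⟨by linarith, by linarith, by linarith, by linarith, by linarith⟩

/-- two vectors spanning the orthogonal complement -/
lemma exists_perp_basis (u : E 3) (hu : u ≠ 0) : ∃ e f : E 3, LinearIndependent ℝ ![e, f] ∧
    ⟪u, e⟫ = 0 ∧ ⟪u, f⟫ = 0 ∧ ∀ y, ⟪u, y⟫ = 0 → ∃ s t : ℝ, y = s • e + t • f := by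
  have : Fact (finrank ℝ (E 3) = 2 + 1) := ⟨by simp⟩
  have h1 : finrank ℝ (ℝ ∙ u)ᗮ = 2 := Submodule.finrank_orthogonal_span_singleton hu
  let b : Basis (Fin 2) ℝ (ℝ ∙ u)ᗮ := finBasisOfFinrankEq ℝ _ h1
  have h2 : ∀ y : (ℝ ∙ u)ᗮ, ⟪u, (y : E 3)⟫ = 0 := fun y =>
    (Submodule.mem_orthogonal_singleton_iff_inner_right.1 y.2)
  refine ⟨b 0, b 1, ?_, h2 _, h2 _, ?_⟩
  · have h3 : LinearIndependent ℝ (fun i => ((b i : (ℝ ∙ u)ᗮ) : E 3)) :=
      b.linearIndependent.map' (Submodule.subtype _) (Submodule.ker_subtype _)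
    have h4 : (![(b 0 : E 3), (b 1 : E 3)]) = fun i => ((b i : (ℝ ∙ u)ᗮ) : E 3) := by
      funext i
      fin_cases i <;> rfl
    rw [h4]
    exact h3
  · intro y hy
    have h3 : y ∈ (ℝ ∙ u)ᗮ := Submodule.mem_orthogonal_singleton_iff_inner_right.2 hy
    refine ⟨b.repr ⟨y, h3⟩ 0, b.repr ⟨y, h3⟩ 1, ?_⟩
    have h4 := b.sum_repr ⟨y, h3⟩
    have h5 := congrArg (fun z : (ℝ ∙ u)ᗮ => (z : E 3)) h4
    simp only [Fin.sum_univ_two, Submodule.coe_add, Submodule.coe_smul] at h5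
    exact h5.symm

/-- parametrization of an ellipse -/
lemma exists_param (q : Quad) (u : E 3) (hu : u ≠ 0)
    (pos : ∀ v, ⟪u, v⟫ = 0 → v ≠ 0 → 0 < q.B v v) (h : ℝ) (p : E 3) (hp : ⟪u, p⟫ = h)
    (hq : q.ev p < 0) :
    ∃ (m v w : E 3) (δ : ℝ), 0 < δ ∧ ⟪u, m⟫ = h ∧ ⟪u, v⟫ = 0 ∧ ⟪u, w⟫ = 0 ∧
      (∀ x, ⟪u, x⟫ = h → ∃ s t : ℝ, x = m + s • v + t • w) ∧
      LinearIndependent ℝ ![v, w] ∧
      ∀ s t : ℝ, q.ev (m + s • v + t • w) = δ * (s ^ 2 + t ^ 2 - 1) := by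
  obtain ⟨e, f, hef, he, hf, hsp⟩ := exists_perp_basis u hu
  have hli := LinearIndependent.pair_iff.1 hef
  have he0 : e ≠ 0 := by
    intro h0
    have := (hli 1 0 (by simp [h0])).1
    norm_num at this
  set α := q.B e e with hα
  have hα0 : 0 < α := pos e he he0
  set β := q.B e f + q.B f e with hβ
  obtain ⟨f', hf'⟩ : ∃ f' : E 3, f' = f - (β / (2 * α)) • e := ⟨_, rfl⟩
  have hf'u : ⟪u, f'⟫ = 0 := by rw [hf', inner_sub_right, inner_smul_right, he, hf]; simp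
  have hf'0 : f' ≠ 0 := by
    intro h0
    have := (hli (-(β / (2 * α))) 1 (by
      rw [one_smul, neg_smul, neg_add_eq_sub, ← hf']
      exact h0)).2
    norm_num at this
  set γ := q.B f' f' with hγ
  have hγ0 : 0 < γ := pos f' hf'u hf'0
  have hcross : q.B e f' + q.B f' e = 0 := by
    rw [hf']
    simp only [map_sub, map_smul, LinearMap.sub_apply, LinearMap.smul_apply, smul_eq_mul]
    rw [← hα]
    field_simp
    linarith
  set sα := Real.sqrt α with hsα
  set sγ := Real.sqrt γ with hsγ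
  have hsα0 : 0 < sα := Real.sqrt_pos.2 hα0
  have hsγ0 : 0 < sγ := Real.sqrt_pos.2 hγ0
  have hsα2 : sα * sα = α := Real.mul_self_sqrt hα0.le
  have hsγ2 : sγ * sγ = γ := Real.mul_self_sqrt hγ0.le
  obtain ⟨v0, hv0⟩ : ∃ v0 : E 3, v0 = sα⁻¹ • e := ⟨_, rfl⟩
  obtain ⟨w0, hw0⟩ : ∃ w0 : E 3, w0 = sγ⁻¹ • f' := ⟨_, rfl⟩
  have b1 : q.B v0 v0 = 1 := by
    rw [hv0]
    simp only [map_smul, LinearMap.smul_apply, smul_eq_mul]
    rw [← hα, ← hsα2]
    field_simp
  have b2 : q.B w0 w0 = 1 := by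
    rw [hw0]
    simp only [map_smul, LinearMap.smul_apply, smul_eq_mul]
    rw [← hγ, ← hsγ2]
    field_simp
  have b3 : q.B v0 w0 + q.B w0 v0 = 0 := by
    rw [hv0, hw0]
    simp only [map_smul, LinearMap.smul_apply, smul_eq_mul]
    have : sα⁻¹ * (sγ⁻¹ * (q.B e) f') + sγ⁻¹ * (sα⁻¹ * (q.B f') e)
      = sα⁻¹ * sγ⁻¹ * (q.B e f' + q.B f' e) := by ring
    have h9 : sγ⁻¹ * (sα⁻¹ * (q.B e) f') + sα⁻¹ * (sγ⁻¹ * (q.B f') e)
      = sα⁻¹ * sγ⁻¹ * (q.B e f' + q.B f' e) := by ring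
    first
    | rw [this, hcross, mul_zero]
    | rw [h9, hcross, mul_zero]
  set A := q.lin p v0 with hA
  set C := q.lin p w0 with hC
  have hev : ∀ s t : ℝ, q.ev (p + s • v0 + t • w0) = s ^ 2 + t ^ 2 + A * s + C * t + q.ev p := by
    intro s t
    rw [Quad.ev_add_smul_smul, b1, b2, b3]
    ring
  set δ := A ^ 2 / 4 + C ^ 2 / 4 - q.ev p with hδ
  have hδ0 : 0 < δ := by
    have := sq_nonneg A
    have := sq_nonneg C
    rw [hδ]
    linarith
  set r := Real.sqrt δ with hr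
  have hr0 : 0 < r := Real.sqrt_pos.2 hδ0
  have hr2 : r * r = δ := Real.mul_self_sqrt hδ0.le
  have huv : ⟪u, v0⟫ = 0 := by rw [hv0, inner_smul_right, he, mul_zero]
  have huw : ⟪u, w0⟫ = 0 := by rw [hw0, inner_smul_right, hf'u, mul_zero]
  refine ⟨p + (-(A / 2)) • v0 + (-(C / 2)) • w0, r • v0, r • w0, δ, hδ0, ?_, ?_, ?_, ?_, ?_, ?_⟩
  · rw [inner_add_right, inner_add_right, inner_smul_right, inner_smul_right, huv, huw, hp]
    ring
  · rw [inner_smul_right, huv, mul_zero]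
  · rw [inner_smul_right, huw, mul_zero]
  · intro x hx
    obtain ⟨s, t, hst⟩ := hsp (x - p) (by rw [inner_sub_right, hx, hp, sub_self])
    have hee : e = sα • v0 := by
      rw [hv0, smul_smul, mul_inv_cancel₀ hsα0.ne', one_smul]
    have hff : f' = sγ • w0 := by
      rw [hw0, smul_smul, mul_inv_cancel₀ hsγ0.ne', one_smul]
    have hfe : f = sγ • w0 + (β / (2 * α)) • (sα • v0) := by
      rw [← hff, ← hee, hf']
      abel
    refine ⟨((s * sα + t * (β / (2 * α)) * sα) + A / 2) / r, ((t * sγ) + C / 2) / r, ?_⟩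
    have hx' : x = p + (s • e + t • f) := by rw [← hst]; abel
    have k1 : ((s * sα + t * (β / (2 * α)) * sα) + A / 2) / r * r =
        (s * sα + t * (β / (2 * α)) * sα) + A / 2 := div_mul_cancel₀ _ hr0.ne'
    have k2 : ((t * sγ) + C / 2) / r * r = (t * sγ) + C / 2 := div_mul_cancel₀ _ hr0.ne'
    rw [hx', hfe]
    conv_lhs => rw [hee]
    rw [smul_smul (((s * sα + t * (β / (2 * α)) * sα) + A / 2) / r), smul_smul (((t * sγ) + C / 2) / r),
      k1, k2]
    module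
  · rw [LinearIndependent.pair_iff]
    intro s t hst
    have h1 : (s * r * sα⁻¹ - t * r * sγ⁻¹ * (β / (2 * α))) • e + (t * r * sγ⁻¹) • f = 0 := by
      rw [← hst, hv0, hw0, hf']
      module
    obtain ⟨h2, h3⟩ := hli _ _ h1
    have ht : t = 0 := by
      rcases mul_eq_zero.1 h3 with h4 | h4
      · rcases mul_eq_zero.1 h4 with h5 | h5
        · exact h5
        · exact absurd h5 hr0.ne'
      · exact absurd h4 (inv_ne_zero hsγ0.ne')
    subst ht
    have h6 : s * r * sα⁻¹ = 0 := by linarith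
    refine ⟨?_, rfl⟩
    rcases mul_eq_zero.1 h6 with h4 | h4
    · rcases mul_eq_zero.1 h4 with h5 | h5
      · exact h5
      · exact absurd h5 hr0.ne'
    · exact absurd h4 (inv_ne_zero hsα0.ne')
  · intro s t
    have h1 : p + (-(A / 2)) • v0 + (-(C / 2)) • w0 + s • r • v0 + t • r • w0 =
        p + (s * r - A / 2) • v0 + (t * r - C / 2) • w0 := by module
    rw [h1, hev]
    have h2 : q.ev p = A ^ 2 / 4 + C ^ 2 / 4 - δ := by rw [hδ]; ring
    rw [h2, ← hr2]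
    ring

/-- five common points -/
lemma five_points (q G : Quad) (u : E 3) (hu : u ≠ 0)
    (pos : ∀ v, ⟪u, v⟫ = 0 → v ≠ 0 → 0 < q.B v v) (h : ℝ) (p : E 3) (hp : ⟪u, p⟫ = h)
    (hq : q.ev p < 0) (F : Finset (E 3)) (hF : 5 ≤ F.card)
    (h1 : ∀ x ∈ F, ⟪u, x⟫ = h ∧ q.ev x = 0 ∧ G.ev x = 0) :
    ∃ l : ℝ, ∀ x, ⟪u, x⟫ = h → G.ev x = l * q.ev x := by
  classical
  obtain ⟨m, v, w, δ, hδ, hm, hv, hw, hsp, hli, hev⟩ := exists_param q u hu pos h p hp hq
  have hli' := LinearIndependent.pair_iff.1 hli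
  have hch : ∀ x : E 3, ∃ st : ℝ × ℝ, ⟪u, x⟫ = h → x = m + st.1 • v + st.2 • w := by
    intro x
    by_cases hx : ⟪u, x⟫ = h
    · obtain ⟨s, t, hst⟩ := hsp x hx
      exact ⟨(s, t), fun _ => hst⟩
    · exact ⟨(0, 0), fun h' => absurd h' hx⟩
  choose φ hφ using hch
  have hinj : ∀ x ∈ F, ∀ y ∈ F, φ x = φ y → x = y := by
    intro x hx y hy hxy
    rw [hφ x (h1 x hx).1, hφ y (h1 y hy).1, hxy]
  have hcard : 5 ≤ (F.image φ).card := by
    rw [Finset.card_image_of_injOn (fun x hx y hy hxy => hinj x hx y hy hxy)]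
    exact hF
  have hG : ∀ s t : ℝ, G.ev (m + s • v + t • w) = G.B v v * s ^ 2 +
      (G.B v w + G.B w v) * s * t + G.B w w * t ^ 2 + G.lin m v * s + G.lin m w * t + G.ev m :=
    fun s t => Quad.ev_add_smul_smul G m v w s t
  obtain ⟨c1, c2, c3, c4, c5⟩ := circle5 (G.B v v) (G.B v w + G.B w v) (G.B w w) (G.lin m v)
    (G.lin m w) (G.ev m) (F.image φ) hcard (by
      intro st hst
      obtain ⟨x, hx, rfl⟩ := Finset.mem_image.1 hst
      have h2 := (h1 x hx).2.1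
      rw [hφ x (h1 x hx).1, hev] at h2
      rcases mul_eq_zero.1 h2 with h3 | h3
      · exact absurd h3 hδ.ne'
      · linarith) (by
      intro st hst
      obtain ⟨x, hx, rfl⟩ := Finset.mem_image.1 hst
      have h2 := (h1 x hx).2.2
      rw [hφ x (h1 x hx).1, hG] at h2
      exact h2)
  refine ⟨G.B v v / δ, fun x hx => ?_⟩
  obtain ⟨s, t, rfl⟩ := hsp x hx
  rw [hev, hG, c2, c3, c4, c5, ← c1]
  field_simp
  ring

end Pool.Agent.Helper14.BL
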